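import Mathlib

/-!
# Thin subsets: greedy covering and random subsets
-/

set_option autoImplicit false

namespace Pool.Agent.Thin

open Finset

/-- greedy covering -/
theorem greedy {ι κ : Type} [DecidableEq ι] [DecidableEq κ] (P : Finset κ) (hP : P.Nonempty) (M : Finset ι)
    (R : ι → Finset κ) (hR : ∀ i ∈ M, R i ⊆ P) (ρ : ℝ) (hρ : ∀ i ∈ M, ρ * #P ≤ #(R i)) (k : ℕ) :
    ∃ A ⊆ P, #A ≤ k ∧ (#{i ∈ M | Disjoint A (R i)} : ℝ) ≤ (1 - ρ) ^ k * #M := by
  rcases M.eq_empty_or_nonempty with rfl | ⟨i0, hi0⟩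
  · exact ⟨∅, empty_subset _, by simp, by simp⟩
  have hP0 : (0 : ℝ) < #P := by exact_mod_cast hP.card_pos
  have h1 : ρ ≤ 1 := by
    have h2 := hρ i0 hi0
    have h3 : (#(R i0) : ℝ) ≤ #P := by exact_mod_cast card_le_card (hR i0 hi0)
    by_contra h4
    push Not at h4
    nlinarith
  induction k with
  | zero =>
    refine ⟨∅, empty_subset _, by simp, ?_⟩
    rw [pow_zero, one_mul]
    exact_mod_cast card_le_card (filter_subset _ _)
  | succ k ih =>
    obtain ⟨A, hA, hk, hc⟩ := ih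
    set U := {i ∈ M | Disjoint A (R i)} with hU
    have hsum : ∑ p ∈ P, (#{i ∈ U | p ∈ R i} : ℝ) = ∑ i ∈ U, (#(R i) : ℝ) := by
      have e1 : ∀ p ∈ P, (#{i ∈ U | p ∈ R i} : ℝ) = ∑ i ∈ U, if p ∈ R i then (1 : ℝ) else 0 := by
        intro p _
        rw [← sum_filter, sum_const, nsmul_eq_mul, mul_one]
      rw [sum_congr rfl e1, sum_comm]
      refine sum_congr rfl fun i hi => ?_
      rw [← sum_filter, sum_const, nsmul_eq_mul, mul_one]
      congr 1
      congr 1
      ext p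
      rw [mem_filter]
      exact ⟨fun h => h.2, fun h => ⟨hR i (mem_filter.1 hi).1 h, h⟩⟩
    have hex : ∃ p ∈ P, ρ * #U ≤ (#{i ∈ U | p ∈ R i} : ℝ) := by
      by_contra hno
      push Not at hno
      have h2 : ∑ p ∈ P, (#{i ∈ U | p ∈ R i} : ℝ) < ∑ p ∈ P, ρ * #U := sum_lt_sum_of_nonempty hP hno
      rw [hsum, sum_const, nsmul_eq_mul] at h2
      have h3 : ∑ i ∈ U, ρ * #P ≤ ∑ i ∈ U, (#(R i) : ℝ) :=
        sum_le_sum fun i hi => hρ i (mem_filter.1 hi).1
      rw [sum_const, nsmul_eq_mul] at h3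
      nlinarith
    obtain ⟨p, hp, hpc⟩ := hex
    refine ⟨insert p A, insert_subset hp hA, (card_insert_le _ _).trans (by omega), ?_⟩
    have hsub : {i ∈ M | Disjoint (insert p A) (R i)} ⊆ {i ∈ U | p ∉ R i} := by
      intro i hi
      rw [mem_filter, disjoint_insert_left] at hi
      rw [mem_filter, hU, mem_filter]
      exact ⟨⟨hi.1, hi.2.2⟩, hi.2.1⟩
    have hsplit : (#{i ∈ U | p ∈ R i} : ℝ) + #{i ∈ U | p ∉ R i} = #U := by
      exact_mod_cast card_filter_add_card_filter_not (s := U) (fun i => p ∈ R i)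
    have h4 : (#{i ∈ M | Disjoint (insert p A) (R i)} : ℝ) ≤ #{i ∈ U | p ∉ R i} := by
      exact_mod_cast card_le_card hsub
    have h5 : (1 - ρ) * (#U : ℝ) ≤ (1 - ρ) * ((1 - ρ) ^ k * #M) :=
      mul_le_mul_of_nonneg_left hc (by linarith)
    calc (#{i ∈ M | Disjoint (insert p A) (R i)} : ℝ) ≤ #{i ∈ U | p ∉ R i} := h4
      _ ≤ (1 - ρ) * #U := by linarith
      _ ≤ (1 - ρ) * ((1 - ρ) ^ k * #M) := h5
      _ = _ := by ring

/-- the expectation of a product over a random subset -/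
theorem expect {κ : Type} [DecidableEq κ] (P : Finset κ) (α : ℝ) (h : κ → ℝ) :
    ∑ A ∈ P.powerset, (∏ _p ∈ A, α) * (∏ _p ∈ P \ A, (1 - α)) * ∏ p ∈ A, h p =
      ∏ p ∈ P, (α * h p + (1 - α)) := by
  rw [prod_add]
  refine sum_congr rfl fun A _ => ?_
  rw [prod_mul_distrib]
  ring

/-- **thin subset**: one subset of density `α` meets all `R i` in the right proportion -/
theorem thin {ι κ : Type} [DecidableEq κ] (P : Finset κ) (M : Finset ι) (R : ι → Finset κ)
    (hR : ∀ i ∈ M, R i ⊆ P) (α : ℝ) (h0 : 0 < α) (h1 : α ≤ 1)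
    (hbig : ∀ i ∈ M, 4 * Real.log (2 * #M + 2) ≤ α * #(R i)) :
    ∃ A ⊆ P, (#A : ℝ) ≤ 2 * (α * #P) ∧ ∀ i ∈ M, α * #(R i) / 4 ≤ #(A ∩ R i) := by
  rcases M.eq_empty_or_nonempty with rfl | ⟨i0, hi0⟩
  · exact ⟨∅, empty_subset _, by simp; positivity, by simp⟩
  have hlog2 : (0.6931471803 : ℝ) < Real.log 2 := Real.log_two_gt_d9
  have hM1 : (1 : ℝ) ≤ #M := by exact_mod_cast card_pos.2 ⟨i0, hi0⟩
  have hPbig : 4 ≤ α * #P := by
    have h2 := hbig i0 hi0
    have h3 : (#(R i0) : ℝ) ≤ #P := by exact_mod_cast card_le_card (hR i0 hi0)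
    have h4 : Real.log 4 ≤ Real.log (2 * #M + 2) := Real.log_le_log (by norm_num) (by linarith)
    have h5 : Real.log 4 = 2 * Real.log 2 := by
      rw [show (4 : ℝ) = 2 ^ 2 by norm_num, Real.log_pow]
      norm_num
    have h6 : α * #(R i0) ≤ α * #P := mul_le_mul_of_nonneg_left h3 h0.le
    linarith
  let wt : Finset κ → ℝ := fun A => (∏ _p ∈ A, α) * (∏ _p ∈ P \ A, (1 - α))
  have hwt : ∀ A, 0 ≤ wt A := fun A =>
    mul_nonneg (prod_nonneg fun _ _ => h0.le) (prod_nonneg fun _ _ => by linarith)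
  let g : ι → κ → ℝ := fun i p => if p ∈ R i then 1 / 2 else 1
  let F : Finset κ → ℝ := fun A => 1 / 4 * Real.exp (-(α * #P)) * (∏ _p ∈ A, (2 : ℝ)) +
    ∑ i ∈ M, Real.exp (α * #(R i) / 4) * ∏ p ∈ A, g i p
  have hw1 : ∑ A ∈ P.powerset, wt A = 1 := by
    have h2 := expect P α (fun _ => 1)
    simp only [prod_const_one, mul_one, add_sub_cancel] at h2
    exact h2
  have hE : ∑ A ∈ P.powerset, wt A * F A ≤ 1 / 4 + 1 / 2 := by
    have e1 : ∑ A ∈ P.powerset, wt A * F A =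
        1 / 4 * Real.exp (-(α * #P)) * (∑ A ∈ P.powerset, wt A * ∏ _p ∈ A, (2 : ℝ)) +
        ∑ i ∈ M, Real.exp (α * #(R i) / 4) * ∑ A ∈ P.powerset, wt A * ∏ p ∈ A, g i p := by
      simp only [F, mul_add, sum_add_distrib, mul_sum]
      congr 1
      · refine sum_congr rfl fun A _ => ?_
        ring
      · rw [sum_comm]
        refine sum_congr rfl fun i _ => sum_congr rfl fun A _ => ?_
        ring
    have e2 : ∑ A ∈ P.powerset, wt A * ∏ _p ∈ A, (2 : ℝ) = (1 + α) ^ #P := by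
      have h2 := expect P α (fun _ => 2)
      rw [show (fun A => wt A * ∏ _p ∈ A, (2 : ℝ)) = fun A =>
        (∏ _p ∈ A, α) * (∏ _p ∈ P \ A, (1 - α)) * ∏ _p ∈ A, (2 : ℝ) from rfl, h2, prod_const]
      congr 1
      ring
    have e3 : ∀ i ∈ M, ∑ A ∈ P.powerset, wt A * ∏ p ∈ A, g i p = (1 - α / 2) ^ #(R i) := by
      intro i hi
      have h2 := expect P α (g i)
      rw [show (fun A => wt A * ∏ p ∈ A, g i p) = fun A =>
        (∏ _p ∈ A, α) * (∏ _p ∈ P \ A, (1 - α)) * ∏ p ∈ A, g i p from rfl, h2]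
      have h3 : ∀ p ∈ P, α * g i p + (1 - α) = if p ∈ R i then 1 - α / 2 else 1 := by
        intro p _
        simp only [g]
        split_ifs <;> ring
      rw [prod_congr rfl h3, prod_ite, prod_const, prod_const_one, mul_one]
      congr 1
      congr 1
      ext p
      rw [mem_filter]
      exact ⟨fun h => h.2, fun h => ⟨hR i hi h, h⟩⟩
    rw [e1, e2, sum_congr rfl fun i hi => by rw [e3 i hi]]
    have h2 : 1 / 4 * Real.exp (-(α * #P)) * (1 + α) ^ #P ≤ 1 / 4 := by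
      have h3 : (1 + α) ^ #P ≤ Real.exp (α * #P) := by
        have h4 : 1 + α ≤ Real.exp α := by
          have := Real.add_one_le_exp α
          linarith
        calc (1 + α) ^ #P ≤ (Real.exp α) ^ #P := pow_le_pow_left₀ (by linarith) h4 _
          _ = Real.exp (α * #P) := by rw [← Real.exp_nat_mul, mul_comm]
      have h5 : Real.exp (-(α * #P)) * Real.exp (α * #P) = 1 := by
        rw [← Real.exp_add]
        simp
      have h6 : Real.exp (-(α * #P)) * (1 + α) ^ #P ≤ 1 :=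
        (mul_le_mul_of_nonneg_left h3 (Real.exp_pos _).le).trans h5.le
      nlinarith
    have h7 : ∑ i ∈ M, Real.exp (α * #(R i) / 4) * (1 - α / 2) ^ #(R i) ≤ 1 / 2 := by
      have h8 : ∀ i ∈ M, Real.exp (α * #(R i) / 4) * (1 - α / 2) ^ #(R i) ≤ 1 / (2 * #M + 2) := by
        intro i hi
        have h9 : (1 - α / 2) ^ #(R i) ≤ Real.exp (-(α * #(R i) / 2)) := by
          have h10 : 1 - α / 2 ≤ Real.exp (-(α / 2)) := by
            have := Real.add_one_le_exp (-(α / 2))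
            linarith
          calc (1 - α / 2) ^ #(R i) ≤ (Real.exp (-(α / 2))) ^ #(R i) :=
                pow_le_pow_left₀ (by linarith) h10 _
            _ = Real.exp (-(α * #(R i) / 2)) := by
                rw [← Real.exp_nat_mul]
                congr 1
                ring
        calc Real.exp (α * #(R i) / 4) * (1 - α / 2) ^ #(R i)
            ≤ Real.exp (α * #(R i) / 4) * Real.exp (-(α * #(R i) / 2)) :=
              mul_le_mul_of_nonneg_left h9 (Real.exp_pos _).le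
          _ = Real.exp (-(α * #(R i) / 4)) := by
              rw [← Real.exp_add]
              congr 1
              ring
          _ ≤ Real.exp (-Real.log (2 * #M + 2)) := by
              apply Real.exp_le_exp.2
              have := hbig i hi
              linarith
          _ = 1 / (2 * #M + 2) := by
              rw [Real.exp_neg, Real.exp_log (by linarith), one_div]
      calc ∑ i ∈ M, Real.exp (α * #(R i) / 4) * (1 - α / 2) ^ #(R i)
          ≤ ∑ i ∈ M, 1 / (2 * (#M : ℝ) + 2) := sum_le_sum h8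
        _ = #M * (1 / (2 * #M + 2)) := by rw [sum_const, nsmul_eq_mul]
        _ ≤ 1 / 2 := by
            rw [mul_one_div, div_le_div_iff₀ (by linarith) (by norm_num)]
            linarith
    linarith
  have hex : ∃ A ∈ P.powerset, F A < 1 := by
    by_contra hno
    push Not at hno
    have h2 : ∑ A ∈ P.powerset, wt A * 1 ≤ ∑ A ∈ P.powerset, wt A * F A :=
      sum_le_sum fun A hA => mul_le_mul_of_nonneg_left (hno A hA) (hwt A)
    simp only [mul_one] at h2
    rw [hw1] at h2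
    linarith
  obtain ⟨A, hA, hF⟩ := hex
  have hg : ∀ i, ∀ B : Finset κ, 0 ≤ ∏ p ∈ B, g i p := fun i B => prod_nonneg fun p _ => by
    simp only [g]
    split_ifs <;> norm_num
  have hs0 : 0 ≤ ∑ i ∈ M, Real.exp (α * #(R i) / 4) * ∏ p ∈ A, g i p :=
    sum_nonneg fun i _ => mul_nonneg (Real.exp_pos _).le (hg i A)
  have hf0 : 0 ≤ 1 / 4 * Real.exp (-(α * #P)) * (∏ _p ∈ A, (2 : ℝ)) := by positivity
  refine ⟨A, mem_powerset.1 hA, ?_, ?_⟩
  · have h2 : 1 / 4 * Real.exp (-(α * #P)) * (∏ _p ∈ A, (2 : ℝ)) < 1 := by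
      simp only [F] at hF
      linarith
    rw [prod_const] at h2
    have h3 : (2 : ℝ) ^ #A < 4 * Real.exp (α * #P) := by
      have h5 : Real.exp (-(α * #P)) * Real.exp (α * #P) = 1 := by
        rw [← Real.exp_add]
        simp
      have h6 := mul_lt_mul_of_pos_right h2 (Real.exp_pos (α * #P))
      have h7 : 1 / 4 * Real.exp (-(α * #P)) * 2 ^ #A * Real.exp (α * #P) = 1 / 4 * 2 ^ #A := by
        calc 1 / 4 * Real.exp (-(α * #P)) * 2 ^ #A * Real.exp (α * #P) =
            1 / 4 * 2 ^ #A * (Real.exp (-(α * #P)) * Real.exp (α * #P)) := by ring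
          _ = _ := by rw [h5, mul_one]
      rw [h7] at h6
      linarith
    have h4 := Real.log_lt_log (by positivity) h3
    rw [Real.log_pow, Real.log_mul (by norm_num) (Real.exp_pos _).ne', Real.log_exp,
      show (4 : ℝ) = 2 ^ 2 by norm_num, Real.log_pow] at h4
    push_cast at h4
    nlinarith
  · intro i hi
    have h2 : Real.exp (α * #(R i) / 4) * ∏ p ∈ A, g i p < 1 := by
      have h3 := single_le_sum (f := fun i => Real.exp (α * #(R i) / 4) * ∏ p ∈ A, g i p)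
        (fun j _ => mul_nonneg (Real.exp_pos _).le (hg j A)) hi
      simp only [F] at hF
      linarith
    have h3 : ∏ p ∈ A, g i p = (1 / 2) ^ #(A ∩ R i) := by
      simp only [g]
      rw [prod_ite, prod_const, prod_const_one, mul_one, filter_mem_eq_inter]
    rw [h3] at h2
    have h4 := Real.log_lt_log (by positivity) h2
    rw [Real.log_mul (Real.exp_pos _).ne' (by positivity), Real.log_exp, Real.log_pow, Real.log_one,
      Real.log_div (by norm_num) (by norm_num), Real.log_one, zero_sub] at h4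
    have h5 : Real.log 2 ≤ 1 := by
      have := Real.log_two_lt_d9
      linarith
    have h6 : (0 : ℝ) ≤ #(A ∩ R i) := Nat.cast_nonneg _
    nlinarith

/-- the primes `p` of `P` with `m - p` in `Q` -/
def Rs (P Q : Finset ℕ) (m : ℕ) : Finset ℕ := {p ∈ P | p ≤ m ∧ m - p ∈ Q}

theorem reps_le (P Q : Finset ℕ) (m : ℕ) : #{z ∈ P ×ˢ Q | z.1 + z.2 = m} ≤ #(Rs P Q m) := by
  refine card_le_card_of_injOn Prod.fst (fun z hz => ?_) (fun z hz z' hz' e => ?_)
  · rw [mem_coe, mem_filter, mem_product] at hz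
    rw [mem_coe, Rs, mem_filter]
    refine ⟨hz.1.1, by omega, ?_⟩
    rw [show m - z.1 = z.2 by omega]
    exact hz.1.2
  · rw [mem_coe, mem_filter] at hz hz'
    ext
    · exact e
    · omega

/-- greedy covering, exponential form -/
theorem greedy_exp {ι κ : Type} [DecidableEq ι] [DecidableEq κ] (P : Finset κ) (hP : P.Nonempty)
    (M : Finset ι) (R : ι → Finset κ) (hR : ∀ i ∈ M, R i ⊆ P) (ρ : ℝ) (hρ : ∀ i ∈ M, ρ * #P ≤ #(R i))
    (k : ℕ) : ∃ A ⊆ P, #A ≤ k ∧ (#{i ∈ M | Disjoint A (R i)} : ℝ) ≤ Real.exp (-(ρ * k)) * #M := by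
  obtain ⟨A, hA, hk, h⟩ := greedy P hP M R hR ρ hρ k
  refine ⟨A, hA, hk, h.trans ?_⟩
  rcases M.eq_empty_or_nonempty with rfl | ⟨i0, hi0⟩
  · simp
  have hP0 : (0 : ℝ) < #P := by exact_mod_cast hP.card_pos
  have h1 : ρ ≤ 1 := by
    have h2 := hρ i0 hi0
    have h3 : (#(R i0) : ℝ) ≤ #P := by exact_mod_cast card_le_card (hR i0 hi0)
    by_contra h4
    push Not at h4
    nlinarith
  refine mul_le_mul_of_nonneg_right ?_ (Nat.cast_nonneg _)
  have h2 : 1 - ρ ≤ Real.exp (-ρ) := by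
    have := Real.add_one_le_exp (-ρ)
    linarith
  calc (1 - ρ) ^ k ≤ (Real.exp (-ρ)) ^ k := pow_le_pow_left₀ (by linarith) h2 _
    _ = Real.exp (-(ρ * k)) := by
        rw [← Real.exp_nat_mul]
        congr 1
        ring

/-- **both sets thin**, with a second family for the first set -/
theorem pairs (P Q M K : Finset ℕ) (T : ℕ → Finset ℕ) (hT : ∀ m ∈ K, T m ⊆ P) (α β : ℝ) (ha : 0 < α)
    (ha1 : α ≤ 1) (hb : 0 < β) (hb1 : β ≤ 1)
    (hbig : ∀ m ∈ M, 16 * Real.log (2 * (#M + #K) + 2) ≤ α * β * #(Rs P Q m))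
    (hbK : ∀ m ∈ K, 4 * Real.log (2 * (#M + #K) + 2) ≤ α * #(T m)) :
    ∃ A ⊆ P, ∃ B ⊆ Q, (#A : ℝ) ≤ 2 * (α * #P) ∧ (#B : ℝ) ≤ 2 * (β * #Q) ∧
      (∀ m ∈ M, α * β * #(Rs P Q m) / 16 ≤ #{z ∈ A ×ˢ B | z.1 + z.2 = m}) ∧
      ∀ m ∈ K, α * #(T m) / 4 ≤ #(A ∩ T m) := by
  have hK0 : (0 : ℝ) ≤ #K := Nat.cast_nonneg _
  have hM0 : (0 : ℝ) ≤ #M := Nat.cast_nonneg _
  have hlog : 0 ≤ Real.log (2 * (#M + #K) + 2) := Real.log_nonneg (by linarith)
  have hcard : (#(M.disjSum K) : ℝ) = #M + #K := by rw [card_disjSum]; push_cast; ring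
  obtain ⟨A, hA, hA1, hA2⟩ := thin P (M.disjSum K) (Sum.elim (Rs P Q) T) (fun i hi => by
    rcases i with m | m
    · exact filter_subset _ _
    · exact hT m (inr_mem_disjSum.1 hi)) α ha ha1 (by
    intro i hi
    rw [hcard]
    rcases i with m | m
    · have h1 := hbig m (inl_mem_disjSum.1 hi)
      have h3 : (0 : ℝ) ≤ #(Rs P Q m) := Nat.cast_nonneg _
      have h4 : 0 ≤ α * #(Rs P Q m) := by positivity
      have h2 : α * β * #(Rs P Q m) ≤ α * #(Rs P Q m) := by nlinarith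
      change 4 * Real.log (2 * (#M + #K) + 2) ≤ α * #(Rs P Q m)
      linarith
    · exact hbK m (inr_mem_disjSum.1 hi))
  have hAM : ∀ m ∈ M, α * #(Rs P Q m) / 4 ≤ #(A ∩ Rs P Q m) := fun m hm =>
    hA2 (Sum.inl m) (inl_mem_disjSum.2 hm)
  have hAK : ∀ m ∈ K, α * #(T m) / 4 ≤ #(A ∩ T m) := fun m hm =>
    hA2 (Sum.inr m) (inr_mem_disjSum.2 hm)
  let R' : ℕ → Finset ℕ := fun m => (A ∩ Rs P Q m).image fun p => m - p
  have hc : ∀ m, #(R' m) = #(A ∩ Rs P Q m) := by
    intro m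
    refine card_image_of_injOn fun p hp p' hp' e => ?_
    rw [mem_coe, mem_inter, Rs, mem_filter] at hp hp'
    have e' : m - p = m - p' := e
    omega
  obtain ⟨B, hB, hB1, hB2⟩ := thin Q M R' (fun m _ q hq => by
    simp only [R'] at hq
    rw [mem_image] at hq
    obtain ⟨p, hp, rfl⟩ := hq
    rw [mem_inter, Rs, mem_filter] at hp
    exact hp.2.2.2) β hb hb1 (by
    intro m hm
    rw [hc]
    have h1 := hbig m hm
    have h2 := mul_le_mul_of_nonneg_left (hAM m hm) hb.le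
    have h3 : Real.log (2 * #M + 2) ≤ Real.log (2 * (#M + #K) + 2) :=
      Real.log_le_log (by linarith) (by linarith)
    linarith)
  refine ⟨A, hA, B, hB, hA1, hB1, fun m hm => ?_, hAK⟩
  have h1 := hB2 m hm
  rw [hc] at h1
  have h2 := mul_le_mul_of_nonneg_left (hAM m hm) hb.le
  have h3 : (#(B ∩ R' m) : ℝ) ≤ #{z ∈ A ×ˢ B | z.1 + z.2 = m} := by
    norm_cast
    refine card_le_card_of_injOn (fun q => (m - q, q)) (fun q hq => ?_) (fun q _ q' _ e => ?_)
    · rw [mem_coe, mem_inter] at hq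
      obtain ⟨hq1, hq2⟩ := hq
      simp only [R'] at hq2
      rw [mem_image] at hq2
      obtain ⟨p, hp, rfl⟩ := hq2
      rw [mem_inter, Rs, mem_filter] at hp
      rw [mem_coe, mem_filter, mem_product]
      have e1 : m - (m - p) = p := by omega
      simp only [e1]
      exact ⟨⟨hp.1, hq1⟩, by omega⟩
    · exact congrArg Prod.snd e
  nlinarith

end Pool.Agent.Thin
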