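import Mathlib
import Pool.Agent.Work.MP_484fb8_nt.Defs
import Pool.Agent.Work.MP_484fb8_nt.Cheb
import Pool.Agent.Work.Chen.Main

/-!
# Thin sets of primes in primorial intervals: numbers of primes, Chen's theorem
-/

set_option autoImplicit false

namespace Pool.Agent.Thin

open Finset Filter Pool.Agent.Work.MP_484fb8_nt

/-- Chebyshev's upper bound -/
theorem pi_bound : ∃ C : ℝ, 0 < C ∧ ∀ N : ℕ, 2 ≤ N → (Nat.primeCounting N : ℝ) ≤ C * (N / Real.log N) := by
  obtain ⟨x0, hx0⟩ := eventually_atTop.1 (Chebyshev.eventually_primeCounting_le (ε := 1) one_pos)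
  set C0 : ℝ := Real.log 4 + 1 with hC0
  have hC0' : 0 < C0 := by
    have : 0 ≤ Real.log 4 := Real.log_nonneg (by norm_num)
    linarith
  refine ⟨max C0 (|x0| + 1), lt_of_lt_of_le hC0' (le_max_left _ _), fun N hN => ?_⟩
  have hN2 : (2 : ℝ) ≤ N := by exact_mod_cast hN
  have hlog : 0 < Real.log N := Real.log_pos (by linarith)
  have hNl : 1 ≤ N / Real.log N := by
    rw [le_div_iff₀ hlog, one_mul]
    have := Real.log_le_sub_one_of_pos (show (0 : ℝ) < N by linarith)
    linarith
  by_cases h : x0 ≤ N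
  · have h1 := hx0 N h
    rw [Nat.floor_natCast] at h1
    refine h1.trans ?_
    rw [mul_div_assoc]
    exact mul_le_mul_of_nonneg_right (le_max_left _ _) (by linarith)
  · push Not at h
    have h1 : (Nat.primeCounting N : ℝ) ≤ N + 1 := by
      have : Nat.primeCounting N ≤ N + 1 := Nat.count_le _
      exact_mod_cast this
    have h2 : (N : ℝ) + 1 ≤ |x0| + 1 := by
      have := le_abs_self x0
      linarith
    calc (Nat.primeCounting N : ℝ) ≤ |x0| + 1 := h1.trans h2
      _ ≤ max C0 (|x0| + 1) * 1 := by rw [mul_one]; exact le_max_right _ _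
      _ ≤ _ := mul_le_mul_of_nonneg_left hNl (le_trans (by positivity) (le_max_right _ _))

/-- the primes up to `#(n) + 1` -/
theorem card_bound : ∃ C : ℝ, 0 < C ∧ ∀ n : ℕ, 1 ≤ n → ∀ S : Finset ℕ,
    (∀ p ∈ S, p.Prime ∧ p ≤ prml n + 1) → (#S : ℝ) ≤ C * (prml n / Real.log (prml n)) := by
  obtain ⟨C, hC, h⟩ := pi_bound
  refine ⟨2 * C, by positivity, fun n hn S hS => ?_⟩
  have h2 : 2 ≤ prml n := by have := le_prml n; omega
  have h2r : (2 : ℝ) ≤ prml n := by exact_mod_cast h2
  have hlog : 0 < Real.log (prml n) := Real.log_pos (by linarith)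
  have h3 : (#S : ℝ) ≤ Nat.primeCounting (prml n + 1) := by
    norm_cast
    unfold Nat.primeCounting Nat.primeCounting'
    rw [Nat.count_eq_card_filter_range]
    apply card_le_card
    intro p hp
    rw [mem_filter, mem_range]
    have := hS p hp
    exact ⟨by omega, this.1⟩
  have h4 := h (prml n + 1) (by omega)
  push_cast at h4
  have h5 : ((prml n : ℝ) + 1) / Real.log ((prml n : ℝ) + 1) ≤ 2 * (prml n / Real.log (prml n)) := by
    have h6 : Real.log (prml n) ≤ Real.log ((prml n : ℝ) + 1) :=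
      Real.log_le_log (by linarith) (by linarith)
    calc ((prml n : ℝ) + 1) / Real.log ((prml n : ℝ) + 1) ≤ (2 * prml n) / Real.log (prml n) :=
          div_le_div₀ (by linarith) (by linarith) hlog h6
      _ = _ := by ring
  calc (#S : ℝ) ≤ C * (((prml n : ℝ) + 1) / Real.log ((prml n : ℝ) + 1)) := h3.trans h4
    _ ≤ C * (2 * (prml n / Real.log (prml n))) := mul_le_mul_of_nonneg_left h5 hC.le
    _ = _ := by ring

theorem mem_P {n p : ℕ} (h : p ∈ primesIn n) : p.Prime ∧ p ≤ prml n + 1 := by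
  unfold primesIn primorialInterval at h
  rw [mem_filter, mem_Icc] at h
  exact ⟨h.2, h.1.2⟩

theorem prml_le_succ (n : ℕ) : prml n ≤ prml (n + 1) := by
  rw [prml_succ]
  exact Nat.le_mul_of_pos_right _ (Nat.prime_nth_prime n).pos

theorem mem_Q {n p : ℕ} (h : p ∈ primesIn n ∪ primesIn (n + 1)) : p.Prime ∧ p ≤ prml (n + 1) + 1 := by
  rw [mem_union] at h
  rcases h with h | h
  · have h1 := mem_P h
    have h2 := prml_le_succ n
    exact ⟨h1.1, by omega⟩
  · exact mem_P h

theorem card_evens (n : ℕ) : #(evensIn (n + 1)) ≤ prml (n + 1) := by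
  unfold evensIn primorialInterval
  refine (card_filter_le _ _).trans ?_
  rw [Nat.card_Icc]
  have := prml_pos (n + 1 - 1)
  omega

theorem log_evens (n : ℕ) (hn : 1 ≤ n) (M K : Finset ℕ) (hM : M ⊆ evensIn (n + 1))
    (hK : K ⊆ evensIn (n + 1)) :
    Real.log (2 * (#M + #K) + 2) ≤ 3 * Real.log (prml (n + 1)) := by
  have h1 : #M ≤ prml (n + 1) := (card_le_card hM).trans (card_evens n)
  have h1' : #K ≤ prml (n + 1) := (card_le_card hK).trans (card_evens n)
  have h2 : 3 ≤ prml (n + 1) := by have := le_prml (n + 1); omega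
  have h3 : 2 * (#M + #K) + 2 ≤ prml (n + 1) ^ 3 := by nlinarith [Nat.mul_le_mul h2 h2]
  have h4 : Real.log (2 * (#M + #K) + 2) ≤ Real.log ((prml (n + 1) : ℝ) ^ 3) := by
    apply Real.log_le_log (by positivity)
    exact_mod_cast h3
  rw [Real.log_pow] at h4
  exact_mod_cast h4

/-- `r` is a prime, or a product of two primes that are both at least `m ^ (1/8)`. -/
def PrimeOrProduct (m r : ℕ) : Prop :=
  r.Prime ∨ ∃ a b : ℕ, a.Prime ∧ b.Prime ∧ (m : ℝ) ^ (1 / 8 : ℝ) ≤ a ∧ (m : ℝ) ^ (1 / 8 : ℝ) ≤ b ∧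
    r = a * b

open scoped Classical in
/-- The primes `p ∈ 𝒫_n` for which `r = m - p` lies in `ℐ_n ∪ ℐ_{n+1}` and is a prime or a product
of two primes that are both at least `m ^ (1/8)`. -/
noncomputable def chenPrimes (n m : ℕ) : Finset ℕ :=
  {p ∈ primesIn n | p ≤ m ∧ m - p ∈ primorialInterval n ∪ primorialInterval (n + 1) ∧
    PrimeOrProduct m (m - p)}

/-- The factor `∏_{p ∣ m, p > 2} (p - 1) / (p - 2) ≥ 1` of the Goldbach singular series. -/
noncomputable def singularFactor (m : ℕ) : ℝ :=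
  ∏ p ∈ m.primeFactors.filter (fun p => 2 < p), (((p : ℝ) - 1) / ((p : ℝ) - 2))

theorem one_le_singularFactor (m : ℕ) : 1 ≤ singularFactor m := by
  unfold singularFactor
  refine prod_induction _ (fun x => (1 : ℝ) ≤ x) (fun a b ha hb => one_le_mul_of_one_le_of_one_le ha hb)
    le_rfl fun p hp => ?_
  rw [mem_filter] at hp
  have h6 : (3 : ℝ) ≤ p := by exact_mod_cast hp.2
  rw [le_div_iff₀ (by linarith)]
  linarith

theorem chen_lower : ∃ c : ℝ, 0 < c ∧ ∃ n₀ : ℕ, ∀ n, n₀ ≤ n → ∀ m ∈ evensIn (n + 1),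
    c * (singularFactor m * (prml n / (Real.log (prml n)) ^ 2)) ≤ (#(chenPrimes n m) : ℝ) := by
  classical
  obtain ⟨c, hc, n₀, h⟩ := Pool.Agent.Chen.chen_primorial
  refine ⟨c, hc, max n₀ 2, fun n hn m hm => ?_⟩
  rw [max_le_iff] at hn
  have h1 := h n hn.1 m hm
  have hSS : singularFactor m = Pool.Agent.Chen.SS m := rfl
  have hsub : (primesIn n).filter (fun p => m - p ∈ primorialInterval n ∪ primorialInterval (n + 1) ∧
      (m - p).primeFactorsList.length ≤ 2 ∧
      ∀ q ∈ (m - p).primeFactorsList, (m : ℝ) ^ (1 / 8 : ℝ) ≤ q) ⊆ chenPrimes n m := by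
    intro p hp
    rw [mem_filter] at hp
    obtain ⟨hp1, hp2, hp3, hp4⟩ := hp
    have hr : 2 ≤ m - p := by
      unfold primorialInterval at hp2
      rw [mem_union, mem_Icc, mem_Icc] at hp2
      have h2 := prml_pos (n - 1)
      have h3 := prml_pos (n + 1 - 1)
      rcases hp2 with hp2 | hp2 <;> omega
    unfold chenPrimes
    rw [mem_filter]
    refine ⟨hp1, by omega, hp2, ?_⟩
    have hprod := Nat.prod_primeFactorsList (n := m - p) (by omega)
    rcases hl : (m - p).primeFactorsList with _ | ⟨a, _ | ⟨b, _ | ⟨e, l⟩⟩⟩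
    · rw [hl, List.prod_nil] at hprod
      omega
    · left
      have ha : a ∈ (m - p).primeFactorsList := by rw [hl]; simp
      rw [hl, List.prod_cons, List.prod_nil, mul_one] at hprod
      rw [← hprod]
      exact Nat.prime_of_mem_primeFactorsList ha
    · right
      have ha : a ∈ (m - p).primeFactorsList := by rw [hl]; simp
      have hb : b ∈ (m - p).primeFactorsList := by rw [hl]; simp
      rw [hl, List.prod_cons, List.prod_cons, List.prod_nil, mul_one] at hprod
      exact ⟨a, b, Nat.prime_of_mem_primeFactorsList ha, Nat.prime_of_mem_primeFactorsList hb,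
        hp4 a ha, hp4 b hb, hprod.symm⟩
    · rw [hl] at hp3
      simp at hp3
  rw [hSS]
  refine h1.trans ?_
  have := card_le_card hsub
  exact_mod_cast this

end Pool.Agent.Thin
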