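import Mathlib
import Pool.Agent.Work.MP_484fb8_thin.Comb
import Pool.Agent.Work.MP_484fb8_thin.Num
import Pool.Agent.Work.PS.MainB

/-!
# Thin sets of primes in primorial intervals
-/

set_option autoImplicit false

namespace Pool.Agent.Thin

open Finset Filter Pool.Agent.Work.MP_484fb8_nt

/-- the condition at density one -/
theorem cube_le (C : ℝ) : ∃ n₀ : ℕ, ∀ n, n₀ ≤ n → C * (Real.log (prml (n + 1))) ^ 3 ≤ prml n := by
  have h1 := (Real.isLittleO_pow_log_id_atTop (n := 3)).bound
    (show (0 : ℝ) < 1 / (27 * (|C| + 1)) by positivity)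
  obtain ⟨x0, hx0⟩ := eventually_atTop.1 h1
  refine ⟨max 1 ⌈x0⌉₊, fun n hn => ?_⟩
  rw [max_le_iff] at hn
  have h2 := le_prml n
  have h3 : x0 ≤ prml n := by
    have h4 : (⌈x0⌉₊ : ℝ) ≤ prml n := by exact_mod_cast (show ⌈x0⌉₊ ≤ prml n by omega)
    exact (Nat.le_ceil x0).trans h4
  have h5 := hx0 _ h3
  have h6 : (1 : ℝ) ≤ prml n := by exact_mod_cast (show 1 ≤ prml n by omega)
  have h7 : 0 ≤ Real.log (prml n) := Real.log_nonneg h6
  rw [Real.norm_of_nonneg (by positivity), id, Real.norm_of_nonneg (by linarith)] at h5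
  have h8 := log_prml_succ n hn.1
  have h9 : 0 ≤ Real.log (prml (n + 1)) := by
    apply Real.log_nonneg
    exact_mod_cast (show 1 ≤ prml (n + 1) by have := le_prml (n + 1); omega)
  have h10 : (Real.log (prml (n + 1))) ^ 3 ≤ 27 * (Real.log (prml n)) ^ 3 := by
    calc (Real.log (prml (n + 1))) ^ 3 ≤ (3 * Real.log (prml n)) ^ 3 := pow_le_pow_left₀ h9 h8 3
      _ = _ := by ring
  have h11 : 0 < 27 * (|C| + 1) := by positivity
  calc C * (Real.log (prml (n + 1))) ^ 3 ≤ (|C| + 1) * (Real.log (prml (n + 1))) ^ 3 := by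
        apply mul_le_mul_of_nonneg_right _ (by positivity)
        have := le_abs_self C
        linarith
    _ ≤ (|C| + 1) * (27 * (Real.log (prml n)) ^ 3) := by gcongr
    _ ≤ (|C| + 1) * (27 * (1 / (27 * (|C| + 1)) * prml n)) := by gcongr
    _ = prml n := by
        field_simp

theorem div_totient {m : ℕ} (hm : 0 < m) : (1 : ℝ) ≤ (m : ℝ) / m.totient := by
  have h1 : 0 < m.totient := Nat.totient_pos.2 hm
  rw [one_le_div (by exact_mod_cast h1)]
  exact_mod_cast Nat.totient_le m

theorem evens_pos {n m : ℕ} (hm : m ∈ evensIn (n + 1)) : 0 < m := by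
  unfold evensIn primorialInterval at hm
  rw [mem_filter, mem_Icc] at hm
  omega

/-- the size of the condition -/
theorem size {C c X L l a : ℝ} (hc : 0 < c) (hl : 0 < l) (hL : l ≤ L) {K : ℝ} (hC : K ≤ C * c)
    (hX : 0 < X) (ha : 0 ≤ a) (h : C * L ^ 3 ≤ a * X) : K * L ≤ a * (c * (X / l ^ 2)) := by
  have hL0 : 0 < L := hl.trans_le hL
  have h1 : X / L ^ 2 ≤ X / l ^ 2 := by gcongr
  have h2 : C * L ≤ a * (X / L ^ 2) := by
    rw [← mul_div_assoc, le_div_iff₀ (by positivity)]
    calc C * L * L ^ 2 = C * L ^ 3 := by ring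
      _ ≤ _ := h
  calc K * L ≤ C * c * L := by gcongr
    _ = c * (C * L) := by ring
    _ ≤ c * (a * (X / L ^ 2)) := by gcongr
    _ ≤ c * (a * (X / l ^ 2)) := by gcongr
    _ = _ := by ring

theorem reps_Rs (n m : ℕ) :
    (primorialReps n m : ℝ) ≤ #(Rs (primesIn n) (primesIn n ∪ primesIn (n + 1)) m) := by
  unfold primorialReps
  exact_mod_cast reps_le _ _ m

open scoped Classical in
/-- **thin sets of primes** -/
theorem main : ∃ δ c C : ℝ, 0 < δ ∧ 0 < c ∧ 0 < C ∧ ∃ (r : ℕ → ℕ) (n₀ : ℕ),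
    (∀ A : ℕ, ∃ C' : ℝ, ∀ n : ℕ, 1 ≤ n → (Real.log (prml (n + 1))) ^ A ≤ C' * r n) ∧
    (∀ n, n₀ ≤ n → C * (Real.log (prml (n + 1))) ^ 3 ≤ prml n) ∧
    (∀ n : ℕ, 1 ≤ n → ∀ α β : ℝ, 0 < α → α ≤ 1 → 0 < β → β ≤ 1 →
      C * (Real.log (prml (n + 1))) ^ 3 ≤ α * β * prml n →
      ∃ A ⊆ primesIn n, ∃ B ⊆ primesIn n ∪ primesIn (n + 1),
        (#A : ℝ) ≤ 2 * (α * #(primesIn n)) ∧
        (#B : ℝ) ≤ 2 * (β * #(primesIn n ∪ primesIn (n + 1))) ∧
        (n₀ ≤ n → ∀ m ∈ evensIn (n + 1),
          c * (α * (singularFactor m * (prml n / (Real.log (prml n)) ^ 2)))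
            ≤ (#(A ∩ chenPrimes n m) : ℝ)) ∧
        (#{m ∈ evensIn (n + 1) | ¬ r n ∣ m ∧ (#{z ∈ A ×ˢ B | z.1 + z.2 = m} : ℝ) <
            c * (α * β * (((m : ℝ) / m.totient) * (prml n / (Real.log (prml n)) ^ 2)))} : ℝ)
          ≤ C * (#(evensIn (n + 1)) : ℝ) ^ (1 - δ)) ∧
    (∀ ε : ℝ, 0 < ε → ∃ C' : ℝ, ∀ n : ℕ, 1 ≤ n → ∀ α β : ℝ, 0 < α → α ≤ 1 → 0 < β → β ≤ 1 →
      C' * (prml n : ℝ) ^ (ε - 1) ≤ α * β →
      ∃ A ⊆ primesIn n, ∃ B ⊆ primesIn n ∪ primesIn (n + 1),
        (#A : ℝ) ≤ 2 * (α * #(primesIn n)) ∧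
        (#B : ℝ) ≤ 2 * (β * #(primesIn n ∪ primesIn (n + 1))) ∧
        (#{m ∈ evensIn (n + 1) | ¬ ∃ a ∈ A, ∃ b ∈ B, m = a + b} : ℝ)
          ≤ C' * (#(evensIn (n + 1)) : ℝ) ^ (1 - δ)) ∧
    (∀ n : ℕ, 1 ≤ n → ∀ t : ℝ, 1 ≤ t → ∃ A ⊆ primesIn n,
      (#A : ℝ) ≤ C * (t * Real.log (prml n)) ∧
      (#{m ∈ evensIn (n + 1) | ¬ r n ∣ m ∧
          ¬ ∃ a ∈ A, ∃ q ∈ primesIn n ∪ primesIn (n + 1), m = a + q} : ℝ)
        ≤ C * (#(evensIn (n + 1)) : ℝ) ^ (1 - δ) + Real.exp (-t) * #(evensIn (n + 1)) ∧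
      (n₀ ≤ n → (#{m ∈ evensIn (n + 1) | Disjoint A (chenPrimes n m)} : ℝ)
        ≤ Real.exp (-t) * #(evensIn (n + 1)))) := by
  obtain ⟨δ, c1, hδ, hc1, r, hr, h⟩ := Pool.Agent.PS.main_finalb
  obtain ⟨C1, c1', hc1', hE⟩ := h 1 one_pos
  obtain ⟨c2, hc2, n1, hchen⟩ := chen_lower
  obtain ⟨C2, hC2, hcard⟩ := card_bound
  have hl2 : 0 < Real.log 2 := Real.log_pos (by norm_num)
  set C : ℝ := 48 / c1 + 12 / c2 + C2 / c1 + C2 / c2 + 2 / Real.log 2 + |C1| with hCdef
  have b1 : 0 < 48 / c1 := by positivity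
  have b2 : 0 < 12 / c2 := by positivity
  have b3 : 0 < C2 / c1 := by positivity
  have b4 : 0 < C2 / c2 := by positivity
  have b5 : 0 < 2 / Real.log 2 := by positivity
  have b6 : 0 ≤ |C1| := abs_nonneg _
  have hC : 0 < C := by linarith
  have hCc1 : 48 ≤ C * c1 := by
    have : 48 / c1 ≤ C := by linarith
    rwa [div_le_iff₀ hc1] at this
  have hCc2 : 12 ≤ C * c2 := by
    have : 12 / c2 ≤ C := by linarith
    rwa [div_le_iff₀ hc2] at this
  have hC1C : C1 ≤ C := (le_abs_self C1).trans (by linarith)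
  obtain ⟨n2, hn2⟩ := cube_le C
  -- facts about `n`
  have hX : ∀ n, 1 ≤ n → (2 : ℝ) ≤ prml n := fun n hn => by
    exact_mod_cast (show 2 ≤ prml n by have := le_prml n; omega)
  have hl : ∀ n, 1 ≤ n → 0 < Real.log (prml n) := fun n hn =>
    Real.log_pos (by have := hX n hn; linarith)
  have hlL : ∀ n, 1 ≤ n → Real.log (prml n) ≤ Real.log (prml (n + 1)) := fun n hn =>
    Real.log_le_log (by have := hX n hn; linarith) (by exact_mod_cast prml_le_succ n)
  -- the first family
  let G : ℕ → ℕ → ℝ := fun n m => c1 * ((m : ℝ) / m.totient) * (prml n / (Real.log (prml n)) ^ 2)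
  let M1 : ℕ → Finset ℕ := fun n => {m ∈ evensIn (n + 1) | ¬ r n ∣ m ∧ G n m ≤ primorialReps n m}
  have hG : ∀ n, 1 ≤ n → ∀ m ∈ evensIn (n + 1), c1 * (prml n / (Real.log (prml n)) ^ 2) ≤ G n m := by
    intro n hn m hm
    have h1 := div_totient (evens_pos hm)
    have h2 : 0 ≤ prml n / (Real.log (prml n)) ^ 2 := by positivity
    simp only [G]
    nlinarith [mul_nonneg hc1.le h2]
  have hM1 : ∀ n, 1 ≤ n → ∀ S : ℕ → Prop,
      (#{m ∈ evensIn (n + 1) | ¬ r n ∣ m ∧ S m} : ℝ) ≤
        C * (#(evensIn (n + 1)) : ℝ) ^ (1 - δ) + #{m ∈ M1 n | S m} := by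
    intro n hn S
    have h1 := hE n hn
    have h2 : {m ∈ evensIn (n + 1) | ¬ r n ∣ m ∧ S m} ⊆
        {m ∈ evensIn (n + 1) |
          ¬ ((∃ p ∈ primesIn n, ∃ q ∈ primesIn n ∪ primesIn (n + 1), m = p + q) ∧
            c1' * (prml n : ℝ) ^ (1 - (1 : ℝ)) ≤ primorialReps n m ∧
            (¬ r n ∣ m → c1 * ((m : ℝ) / m.totient) * (prml n / (Real.log (prml n)) ^ 2)
              ≤ primorialReps n m))} ∪ {m ∈ M1 n | S m} := by
      intro m hm
      rw [mem_filter] at hm
      rw [mem_union, mem_filter, mem_filter]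
      by_cases h3 : G n m ≤ primorialReps n m
      · right
        simp only [M1]
        rw [mem_filter]
        exact ⟨⟨hm.1, hm.2.1, h3⟩, hm.2.2⟩
      · left
        exact ⟨hm.1, fun h4 => h3 (h4.2.2 hm.2.1)⟩
    have h3 := (card_le_card h2).trans (card_union_le _ _)
    have h4 : (#{m ∈ evensIn (n + 1) | ¬ r n ∣ m ∧ S m} : ℝ) ≤
        (#{m ∈ evensIn (n + 1) |
          ¬ ((∃ p ∈ primesIn n, ∃ q ∈ primesIn n ∪ primesIn (n + 1), m = p + q) ∧
            c1' * (prml n : ℝ) ^ (1 - (1 : ℝ)) ≤ primorialReps n m ∧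
            (¬ r n ∣ m → c1 * ((m : ℝ) / m.totient) * (prml n / (Real.log (prml n)) ^ 2)
              ≤ primorialReps n m))} : ℝ) + #{m ∈ M1 n | S m} := by exact_mod_cast h3
    have h5 : C1 * (#(evensIn (n + 1)) : ℝ) ^ (1 - δ) ≤ C * (#(evensIn (n + 1)) : ℝ) ^ (1 - δ) :=
      mul_le_mul_of_nonneg_right hC1C (by positivity)
    linarith
  refine ⟨δ, min (c1 / 16) (c2 / 4), C, hδ, lt_min (by positivity) (by positivity), hC, r,
    max (max n1 n2) 1, hr, fun n hn => hn2 n (by rw [max_le_iff, max_le_iff] at hn; exact hn.1.2),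
    ?_, ?_, ?_⟩
  · -- both sets thin
    intro n hn α β ha ha1 hb hb1 hcond
    have hab : 0 < α * β := by positivity
    have hXn := hX n hn
    set K : Finset ℕ := if n1 ≤ n then evensIn (n + 1) else ∅ with hK
    have hKs : K ⊆ evensIn (n + 1) := by
      rw [hK]
      split_ifs
      · exact subset_rfl
      · exact empty_subset _
    have hlog := log_evens n hn (M1 n) K (filter_subset _ _) hKs
    obtain ⟨A, hA, B, hB, hA1, hB1, hAB, hAK⟩ := pairs (primesIn n) (primesIn n ∪ primesIn (n + 1))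
      (M1 n) K (chenPrimes n) (fun m _ => filter_subset _ _) α β ha ha1 hb hb1 (by
        intro m hm
        simp only [M1] at hm
        rw [mem_filter] at hm
        have h1 := hG n hn m hm.1
        have h2 := size hc1 (hl n hn) (hlL n hn) hCc1 (by linarith) hab.le hcond
        have h3 := (h1.trans hm.2.2).trans (reps_Rs n m)
        have h4 := mul_le_mul_of_nonneg_left h3 hab.le
        linarith) (by
        intro m hm
        have hn1 : n1 ≤ n := by
          by_contra h0
          rw [hK, if_neg h0] at hm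
          simp at hm
        have h1 := hchen n hn1 m (hKs hm)
        have hc3 : C * (Real.log (prml (n + 1))) ^ 3 ≤ α * prml n := by
          refine hcond.trans ?_
          have : α * β ≤ α := by nlinarith
          exact mul_le_mul_of_nonneg_right this (by linarith)
        have h2 := size hc2 (hl n hn) (hlL n hn) hCc2 (by linarith) ha.le hc3
        have h3 : c2 * (prml n / (Real.log (prml n)) ^ 2) ≤ (#(chenPrimes n m) : ℝ) := by
          refine le_trans ?_ h1
          have h5 := one_le_singularFactor m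
          have h6 : 0 ≤ prml n / (Real.log (prml n)) ^ 2 := by positivity
          gcongr
          nlinarith
        have h4 := mul_le_mul_of_nonneg_left h3 ha.le
        linarith)
    refine ⟨A, hA, B, hB, hA1, hB1, fun hn0 m hm => ?_, ?_⟩
    · rw [max_le_iff, max_le_iff] at hn0
      have hmK : m ∈ K := by rw [hK, if_pos hn0.1.1]; exact hm
      have h1 := hAK m hmK
      have h2 := hchen n hn0.1.1 m hm
      have h3 := mul_le_mul_of_nonneg_left h2 ha.le
      have h4 : 0 ≤ α * (singularFactor m * (prml n / (Real.log (prml n)) ^ 2)) := by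
        have := one_le_singularFactor m
        have h6 : 0 ≤ prml n / (Real.log (prml n)) ^ 2 := by positivity
        positivity
      calc min (c1 / 16) (c2 / 4) * (α * (singularFactor m * (prml n / (Real.log (prml n)) ^ 2)))
          ≤ c2 / 4 * (α * (singularFactor m * (prml n / (Real.log (prml n)) ^ 2))) :=
            mul_le_mul_of_nonneg_right (min_le_right _ _) h4
        _ = α * (c2 * (singularFactor m * (prml n / (Real.log (prml n)) ^ 2))) / 4 := by ring
        _ ≤ α * #(chenPrimes n m) / 4 := by linarith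
        _ ≤ _ := by
            refine h1.trans (le_of_eq ?_)
            congr 1
    · have h1 := hM1 n hn (fun m => (#{z ∈ A ×ˢ B | z.1 + z.2 = m} : ℝ) <
            min (c1 / 16) (c2 / 4) * (α * β * (((m : ℝ) / m.totient) *
              (prml n / (Real.log (prml n)) ^ 2))))
      have h2 : {m ∈ M1 n | (#{z ∈ A ×ˢ B | z.1 + z.2 = m} : ℝ) <
            min (c1 / 16) (c2 / 4) * (α * β * (((m : ℝ) / m.totient) *
              (prml n / (Real.log (prml n)) ^ 2)))} = ∅ := by
        rw [filter_eq_empty_iff]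
        intro m hm
        push Not
        have h3 := hAB m hm
        have hm' := hm
        simp only [M1] at hm'
        rw [mem_filter] at hm'
        have h4 := hm'.2.2.trans (reps_Rs n m)
        have h5 := mul_le_mul_of_nonneg_left h4 hab.le
        have h6 : 0 ≤ α * β * (((m : ℝ) / m.totient) * (prml n / (Real.log (prml n)) ^ 2)) := by
          positivity
        calc min (c1 / 16) (c2 / 4) * (α * β * (((m : ℝ) / m.totient) *
              (prml n / (Real.log (prml n)) ^ 2)))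
            ≤ c1 / 16 * (α * β * (((m : ℝ) / m.totient) * (prml n / (Real.log (prml n)) ^ 2))) :=
              mul_le_mul_of_nonneg_right (min_le_left _ _) h6
          _ = α * β * G n m / 16 := by simp only [G]; ring
          _ ≤ _ := by
              refine le_trans ?_ h3
              linarith
      rw [h2] at h1
      simpa using h1
  · -- all `m`
    intro ε hε
    obtain ⟨C3, c3, hc3, hE3⟩ := h (ε / 2) (by positivity)
    set C' : ℝ := max (288 / (ε * c3)) C3 with hC'
    refine ⟨C', fun n hn α β ha ha1 hb hb1 hcond => ?_⟩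
    have hab : 0 < α * β := by positivity
    have hXn := hX n hn
    have hX0 : (0 : ℝ) < prml n := by linarith
    set M : Finset ℕ := {m ∈ evensIn (n + 1) | c3 * (prml n : ℝ) ^ (1 - ε / 2) ≤ primorialReps n m}
      with hM
    have hlog := log_evens n hn M ∅ (filter_subset _ _) (empty_subset _)
    obtain ⟨A, hA, B, hB, hA1, hB1, hAB, -⟩ := pairs (primesIn n) (primesIn n ∪ primesIn (n + 1))
      M ∅ (chenPrimes n) (fun m _ => filter_subset _ _) α β ha ha1 hb hb1 (by
        intro m hm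
        rw [hM, mem_filter] at hm
        have h3 := hm.2.trans (reps_Rs n m)
        have h4 := mul_le_mul_of_nonneg_left h3 hab.le
        have h5 : (prml n : ℝ) ^ (ε - 1) * (prml n : ℝ) ^ (1 - ε / 2) = (prml n : ℝ) ^ (ε / 2) := by
          rw [← Real.rpow_add hX0]
          congr 1
          ring
        have h6 := Real.log_le_rpow_div hX0.le (show 0 < ε / 2 by positivity)
        have h7 := log_prml_succ n hn
        have h8 : 288 / (ε * c3) * (prml n : ℝ) ^ (ε - 1) ≤ α * β := by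
          refine le_trans ?_ hcond
          exact mul_le_mul_of_nonneg_right (le_max_left _ _) (by positivity)
        have h9 : 288 / ε * (prml n : ℝ) ^ (ε / 2) ≤ α * β * (c3 * (prml n : ℝ) ^ (1 - ε / 2)) := by
          calc 288 / ε * (prml n : ℝ) ^ (ε / 2) =
              288 / (ε * c3) * (prml n : ℝ) ^ (ε - 1) * (c3 * (prml n : ℝ) ^ (1 - ε / 2)) := by
                rw [← h5]
                field_simp
            _ ≤ _ := mul_le_mul_of_nonneg_right h8 (by positivity)
        have h10 : (prml n : ℝ) ^ (ε / 2) / (ε / 2) = 2 / ε * (prml n : ℝ) ^ (ε / 2) := by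
          field_simp
        rw [h10] at h6
        have h11 : 288 / ε * (prml n : ℝ) ^ (ε / 2) = 144 * (2 / ε * (prml n : ℝ) ^ (ε / 2)) := by
          ring
        linarith) (by simp)
    refine ⟨A, hA, B, hB, hA1, hB1, ?_⟩
    refine le_trans ?_ ((hE3 n hn).trans (mul_le_mul_of_nonneg_right (le_max_right _ _) (by positivity)))
    norm_cast
    apply card_le_card
    intro m hm
    rw [mem_filter] at hm ⊢
    refine ⟨hm.1, fun h4 => hm.2 ?_⟩
    have hmM : m ∈ M := by rw [hM, mem_filter]; exact ⟨hm.1, h4.2.1⟩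
    have h5 := hAB m hmM
    have h6 := h4.2.1.trans (reps_Rs n m)
    have h7 : 0 < c3 * (prml n : ℝ) ^ (1 - ε / 2) := by positivity
    have h8 : 0 < α * β * #(Rs (primesIn n) (primesIn n ∪ primesIn (n + 1)) m) / 16 := by
      have := h7.trans_le h6
      positivity
    have h9 := h8.trans_le h5
    have h10 : 0 < #{z ∈ A ×ˢ B | z.1 + z.2 = m} := by exact_mod_cast h9
    obtain ⟨z, hz⟩ := card_pos.1 h10
    rw [mem_filter, mem_product] at hz
    exact ⟨z.1, hz.1.1, z.2, hz.1.2, hz.2.symm⟩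
  · -- greedy
    intro n hn t ht
    have hXn := hX n hn
    have hX0 : (0 : ℝ) < prml n := by linarith
    have hln := hl n hn
    have hPne : (primesIn n).Nonempty ∨ primesIn n = ∅ := (primesIn n).eq_empty_or_nonempty.symm
    have hPc := hcard n hn (primesIn n) (fun p hp => mem_P hp)
    have key : ∀ c : ℝ, 0 < c → ∀ N ⊆ evensIn (n + 1), ∀ T : ℕ → Finset ℕ, (∀ m ∈ N, T m ⊆ primesIn n) →
        (∀ m ∈ N, c * (prml n / (Real.log (prml n)) ^ 2) ≤ (#(T m) : ℝ)) →
        ∃ A ⊆ primesIn n, (#A : ℝ) ≤ C2 / c * (t * Real.log (prml n)) + 1 ∧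
          (#{m ∈ N | Disjoint A (T m)} : ℝ) ≤ Real.exp (-t) * #(evensIn (n + 1)) := by
      intro c hc N hN T hT1 hT2
      rcases N.eq_empty_or_nonempty with rfl | ⟨m0, hm0⟩
      · refine ⟨∅, empty_subset _, ?_, ?_⟩
        · rw [card_empty, Nat.cast_zero]
          positivity
        · rw [filter_empty, card_empty, Nat.cast_zero]
          positivity
      have hne : (primesIn n).Nonempty := by
        have h1 := hT2 m0 hm0
        have h2 : 0 < c * (prml n / (Real.log (prml n)) ^ 2) := by positivity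
        have h3 : 0 < #(T m0) := by exact_mod_cast h2.trans_le h1
        exact (card_pos.1 h3).mono (hT1 m0 hm0)
      set ρ : ℝ := c / C2 / Real.log (prml n) with hρ
      have hρ0 : 0 < ρ := by positivity
      obtain ⟨A, hA, hAk, hAc⟩ := greedy_exp (primesIn n) hne N T hT1 ρ (fun m hm => by
        refine le_trans ?_ (hT2 m hm)
        calc ρ * #(primesIn n) ≤ ρ * (C2 * (prml n / Real.log (prml n))) :=
              mul_le_mul_of_nonneg_left hPc hρ0.le
          _ = c * (prml n / (Real.log (prml n)) ^ 2) := by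
              rw [hρ]
              field_simp) ⌈t / ρ⌉₊
      refine ⟨A, hA, ?_, ?_⟩
      · have h1 : (#A : ℝ) ≤ ⌈t / ρ⌉₊ := by exact_mod_cast hAk
        have h2 : (⌈t / ρ⌉₊ : ℝ) < t / ρ + 1 := Nat.ceil_lt_add_one (by positivity)
        have h3 : t / ρ = C2 / c * (t * Real.log (prml n)) := by
          rw [hρ]
          field_simp
        linarith
      · refine hAc.trans ?_
        have h1 : t ≤ ρ * ⌈t / ρ⌉₊ := by
          have := Nat.le_ceil (t / ρ)
          rw [div_le_iff₀ hρ0] at this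
          linarith
        have h2 : (#N : ℝ) ≤ #(evensIn (n + 1)) := by exact_mod_cast card_le_card hN
        have h3 : Real.exp (-(ρ * ⌈t / ρ⌉₊)) ≤ Real.exp (-t) := Real.exp_le_exp.2 (by linarith)
        gcongr
    obtain ⟨A1, hA1, hA1c, hA1e⟩ := key c1 hc1 (M1 n) (filter_subset _ _)
      (Rs (primesIn n) (primesIn n ∪ primesIn (n + 1))) (fun m _ => filter_subset _ _) (fun m hm => by
        simp only [M1] at hm
        rw [mem_filter] at hm
        exact ((hG n hn m hm.1).trans hm.2.2).trans (reps_Rs n m))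
    obtain ⟨A2, hA2, hA2c, hA2e⟩ := key c2 hc2 (if n1 ≤ n then evensIn (n + 1) else ∅) (by
        split_ifs
        · exact subset_rfl
        · exact empty_subset _) (chenPrimes n) (fun m _ => filter_subset _ _) (fun m hm => by
        have hn1 : n1 ≤ n := by
          by_contra h0
          rw [if_neg h0] at hm
          simp at hm
        rw [if_pos hn1] at hm
        refine le_trans ?_ (hchen n hn1 m hm)
        have h5 := one_le_singularFactor m
        have h6 : 0 ≤ prml n / (Real.log (prml n)) ^ 2 := by positivity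
        gcongr
        nlinarith)
    refine ⟨A1 ∪ A2, union_subset hA1 hA2, ?_, ?_, fun hn0 => ?_⟩
    · have h1 : (#(A1 ∪ A2) : ℝ) ≤ #A1 + #A2 := by exact_mod_cast card_union_le _ _
      have h2 : Real.log 2 ≤ Real.log (prml n) := Real.log_le_log (by norm_num) hXn
      have h3 : Real.log 2 ≤ t * Real.log (prml n) := by nlinarith
      have h4 : 2 ≤ 2 / Real.log 2 * (t * Real.log (prml n)) := by
        calc (2 : ℝ) = 2 / Real.log 2 * Real.log 2 := by field_simp
          _ ≤ _ := by gcongr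
      have h5 : 0 ≤ t * Real.log (prml n) := by positivity
      have h6 : (C2 / c1 + C2 / c2 + 2 / Real.log 2) * (t * Real.log (prml n)) ≤
          C * (t * Real.log (prml n)) := mul_le_mul_of_nonneg_right (by linarith) h5
      nlinarith
    · obtain ⟨U, hU⟩ : ∃ U : ℕ → Prop, ∀ m, (∃ a ∈ A1 ∪ A2,
          ∃ q ∈ primesIn n ∪ primesIn (n + 1), m = a + q) ↔ U m := ⟨_, fun _ => Iff.rfl⟩
      have h1 := hM1 n hn (fun m => ¬ U m)
      refine le_trans (Nat.cast_le.2 (card_le_card fun m hm => ?_))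
        (h1.trans (add_le_add le_rfl
          ((Nat.cast_le.2 (card_le_card fun m hm => ?_)).trans hA1e)))
      · simp only [mem_filter] at hm ⊢
        exact ⟨hm.1, hm.2.1, fun hu => hm.2.2 ((hU m).2 hu)⟩
      · simp only [mem_filter] at hm ⊢
        refine ⟨hm.1, ?_⟩
        rw [disjoint_left]
        intro a ha ha'
        simp only [Rs, mem_filter] at ha'
        exact hm.2 ((hU m).1 ⟨a, mem_union_left _ ha, m - a, ha'.2.2, by omega⟩)
    · rw [max_le_iff, max_le_iff] at hn0
      refine (Nat.cast_le.2 (card_le_card fun m hm => ?_)).trans hA2e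
      simp only [mem_filter] at hm ⊢
      rw [if_pos hn0.1.1]
      exact ⟨hm.1, disjoint_of_subset_left subset_union_right hm.2⟩

/-- the order of magnitude of the number of elements of `A` is the right one -/
theorem converse : ∃ C : ℝ, 0 < C ∧ ∀ n : ℕ, 1 ≤ n → ∀ A : Finset ℕ,
    (#{m ∈ evensIn (n + 1) | ∃ a ∈ A, ∃ q ∈ primesIn n ∪ primesIn (n + 1), m = a + q} : ℝ) ≤
      C * (#A * (prml (n + 1) / Real.log (prml (n + 1)))) := by
  obtain ⟨C, hC, h⟩ := card_bound
  refine ⟨C, hC, fun n hn A => ?_⟩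
  have h1 := h (n + 1) (by omega) (primesIn n ∪ primesIn (n + 1)) (fun p hp => mem_Q hp)
  have h2 : #{m ∈ evensIn (n + 1) | ∃ a ∈ A, ∃ q ∈ primesIn n ∪ primesIn (n + 1), m = a + q} ≤
      #A * #(primesIn n ∪ primesIn (n + 1)) := by
    rw [← card_product]
    refine (card_le_card ?_).trans (card_image_le (s := A ×ˢ (primesIn n ∪ primesIn (n + 1)))
      (f := fun z => z.1 + z.2))
    intro m hm
    rw [mem_filter] at hm
    obtain ⟨_, a, ha, q, hq, rfl⟩ := hm
    rw [mem_image]
    exact ⟨(a, q), mem_product.2 ⟨ha, hq⟩, rfl⟩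
  calc (#{m ∈ evensIn (n + 1) | ∃ a ∈ A, ∃ q ∈ primesIn n ∪ primesIn (n + 1), m = a + q} : ℝ) ≤
      #A * #(primesIn n ∪ primesIn (n + 1)) := by exact_mod_cast h2
    _ ≤ #A * (C * (prml (n + 1) / Real.log (prml (n + 1)))) := by gcongr
    _ = _ := by ring

end Pool.Agent.Thin
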