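import Mathlib
import Pool.Agent.Work.MP_484fb8_thin.Main
import Pool.Agent.Work.PS.E.FINE

/-!
# Thin sets of primes and arbitrary weights
-/

set_option autoImplicit false

namespace Pool.Agent.Thin

open Finset Filter Pool.Agent.Work.MP_484fb8_nt

theorem pw {E F F' : Finset ℕ} {w : ℕ → ℝ} (hw : ∀ m ∈ E, 0 ≤ w m) (h : F ⊆ F') (h' : F' ⊆ E)
    (k : ℕ) : (∑ m ∈ F, w m) ^ k ≤ (∑ m ∈ F', w m) ^ k :=
  pow_le_pow_left₀ (sum_nonneg fun m hm => hw m (h' (h hm)))
    (sum_le_sum_of_subset_of_nonneg h fun m hm _ => hw m (h' hm)) k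

/-- one pair of thin sets for all `m` -/
theorem univ_pair (n : ℕ) (hn : 1 ≤ n) (α β : ℝ) (ha : 0 < α) (ha1 : α ≤ 1) (hb : 0 < β)
    (hb1 : β ≤ 1) : ∃ A ⊆ primesIn n, ∃ B ⊆ primesIn n ∪ primesIn (n + 1),
      (#A : ℝ) ≤ 2 * (α * #(primesIn n)) ∧
      (#B : ℝ) ≤ 2 * (β * #(primesIn n ∪ primesIn (n + 1))) ∧
      (∀ m ∈ evensIn (n + 1), 48 * Real.log (prml (n + 1)) ≤ α * β * primorialReps n m →
        α * β * primorialReps n m / 16 ≤ (#{z ∈ A ×ˢ B | z.1 + z.2 = m} : ℝ)) ∧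
      ∀ m ∈ evensIn (n + 1), 12 * Real.log (prml (n + 1)) ≤ α * #(chenPrimes n m) →
        α * #(chenPrimes n m) / 4 ≤ (#(A ∩ chenPrimes n m) : ℝ) := by
  classical
  have hab : 0 < α * β := by positivity
  set M : Finset ℕ := {m ∈ evensIn (n + 1) | 48 * Real.log (prml (n + 1)) ≤
    α * β * primorialReps n m} with hM
  set K : Finset ℕ := {m ∈ evensIn (n + 1) | 12 * Real.log (prml (n + 1)) ≤
    α * #(chenPrimes n m)} with hK
  have hlog := log_evens n hn M K (filter_subset _ _) (filter_subset _ _)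
  obtain ⟨A, hA, B, hB, hA1, hB1, hAB, hAK⟩ := pairs (primesIn n) (primesIn n ∪ primesIn (n + 1))
    M K (chenPrimes n) (fun m _ => filter_subset _ _) α β ha ha1 hb hb1 (by
      intro m hm
      rw [hM, mem_filter] at hm
      have h4 := mul_le_mul_of_nonneg_left (reps_Rs n m) hab.le
      linarith [hm.2]) (by
      intro m hm
      rw [hK, mem_filter] at hm
      linarith [hm.2])
  refine ⟨A, hA, B, hB, hA1, hB1, fun m hm h => ?_, fun m hm h => ?_⟩
  · have h1 := hAB m (by rw [hM, mem_filter]; exact ⟨hm, h⟩)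
    have h4 := mul_le_mul_of_nonneg_left (reps_Rs n m) hab.le
    refine le_trans ?_ h1
    linarith
  · have h1 := hAK m (by rw [hK, mem_filter]; exact ⟨hm, h⟩)
    refine h1.trans (le_of_eq ?_)
    congr 1

/-- the threshold -/
noncomputable def DD (ε : ℝ) : ℝ := max (2304 / ε) (16 ^ (2 / ε))

theorem DD_spec {ε : ℝ} (hε : 0 < ε) {n : ℕ} (hn : 1 ≤ n) {g : ℝ} (hg : g ≤ 1)
    (h : DD ε * (prml n : ℝ) ^ (ε - 1) ≤ g) {t : ℝ} (ht : 1 / 8 * (prml n : ℝ) ^ (1 - ε / 2) ≤ t) :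
    48 * Real.log (prml (n + 1)) ≤ g * t ∧ g * (1 / 8 * (prml n : ℝ) ^ (1 - ε)) ≤ g * t / 16 := by
  have hX1 : (1 : ℝ) ≤ prml n := by
    exact_mod_cast (show 1 ≤ prml n by have := le_prml n; omega)
  have hX0 : (0 : ℝ) < prml n := by linarith
  have hD0 : 0 < DD ε := lt_of_lt_of_le (by positivity : 0 < 2304 / ε) (le_max_left _ _)
  have hg0 : 0 < g := lt_of_lt_of_le (by positivity) h
  constructor
  · have h6 := Real.log_le_rpow_div hX0.le (show 0 < ε / 2 by positivity)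
    have h7 := log_prml_succ n hn
    have h10 : (prml n : ℝ) ^ (ε / 2) / (ε / 2) = 2 / ε * (prml n : ℝ) ^ (ε / 2) := by
      field_simp
    rw [h10] at h6
    have h5 : (prml n : ℝ) ^ (ε - 1) * (prml n : ℝ) ^ (1 - ε / 2) = (prml n : ℝ) ^ (ε / 2) := by
      rw [← Real.rpow_add hX0]
      congr 1
      ring
    have h8 : DD ε * (prml n : ℝ) ^ (ε - 1) * (1 / 8 * (prml n : ℝ) ^ (1 - ε / 2)) ≤ g * t :=
      mul_le_mul h ht (by positivity) hg0.le
    have h9 : DD ε * (prml n : ℝ) ^ (ε - 1) * (1 / 8 * (prml n : ℝ) ^ (1 - ε / 2)) =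
        1 / 8 * DD ε * (prml n : ℝ) ^ (ε / 2) := by
      rw [← h5]
      ring
    have h11 : 1 / 8 * (2304 / ε) * (prml n : ℝ) ^ (ε / 2) ≤
        1 / 8 * DD ε * (prml n : ℝ) ^ (ε / 2) := by
      have : 2304 / ε ≤ DD ε := le_max_left _ _
      gcongr
    have h12 : 1 / 8 * (2304 / ε) * (prml n : ℝ) ^ (ε / 2) =
        144 * (2 / ε * (prml n : ℝ) ^ (ε / 2)) := by ring
    linarith
  · have h1 : DD ε ≤ prml n := by
      have h2 : DD ε * (prml n : ℝ) ^ (ε - 1) ≤ 1 := h.trans hg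
      have h3 : (prml n : ℝ) ^ (ε - 1) * (prml n : ℝ) ^ (1 - ε) = 1 := by
        rw [← Real.rpow_add hX0]
        simp
      have h4 : DD ε ≤ (prml n : ℝ) ^ (1 - ε) := by
        calc DD ε = DD ε * (prml n : ℝ) ^ (ε - 1) * (prml n : ℝ) ^ (1 - ε) := by
              rw [mul_assoc, h3, mul_one]
          _ ≤ 1 * (prml n : ℝ) ^ (1 - ε) := mul_le_mul_of_nonneg_right h2 (by positivity)
          _ = _ := one_mul _
      refine h4.trans ?_
      calc (prml n : ℝ) ^ (1 - ε) ≤ (prml n : ℝ) ^ (1 : ℝ) :=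
            Real.rpow_le_rpow_of_exponent_le hX1 (by linarith)
        _ = prml n := Real.rpow_one _
    have h2 : (16 : ℝ) ≤ (prml n : ℝ) ^ (ε / 2) := by
      have h3 : (16 : ℝ) ^ (2 / ε) ≤ prml n := (le_max_right _ _).trans h1
      calc (16 : ℝ) = ((16 : ℝ) ^ (2 / ε)) ^ (ε / 2) := by
            rw [← Real.rpow_mul (by norm_num)]
            have : 2 / ε * (ε / 2) = 1 := by field_simp
            rw [this, Real.rpow_one]
        _ ≤ _ := Real.rpow_le_rpow (by positivity) h3 (by positivity)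
    have h5 : (prml n : ℝ) ^ (1 - ε / 2) = (prml n : ℝ) ^ (1 - ε) * (prml n : ℝ) ^ (ε / 2) := by
      rw [← Real.rpow_add hX0]
      congr 1
      ring
    have h6 : 16 * (1 / 8 * (prml n : ℝ) ^ (1 - ε)) ≤ t := by
      refine le_trans ?_ ht
      rw [h5]
      have : 0 < (prml n : ℝ) ^ (1 - ε) := by positivity
      nlinarith
    have := mul_le_mul_of_nonneg_left h6 hg0.le
    linarith

end Pool.Agent.Thin
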