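import Mathlib
import Pool.Agent.Work.MP_484fb8_thin.En

/-!
# Thin sets of primes and arbitrary weights: the theorem
-/

set_option autoImplicit false

namespace Pool.Agent.Thin

open Finset Filter Pool.Agent.Work.MP_484fb8_nt

open scoped Classical in
/-- **thin sets of primes, all weights** -/
theorem main3 : ∃ δ c C : ℝ, 0 < δ ∧ 0 < c ∧ 0 < C ∧
    ∃ (r : ℕ → ℕ) (n₀ : ℕ) (D : ℝ → ℝ) (C' : ℝ → ℕ → ℝ),
    (∀ A : ℕ, ∃ C' : ℝ, ∀ n : ℕ, 1 ≤ n → (Real.log (prml (n + 1))) ^ A ≤ C' * r n) ∧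
    (∀ n, n₀ ≤ n → C * (Real.log (prml (n + 1))) ^ 3 ≤ prml n) ∧
    (∀ n : ℕ, 1 ≤ n → ∀ α β : ℝ, 0 < α → α ≤ 1 → 0 < β → β ≤ 1 →
      ∃ A ⊆ primesIn n, ∃ B ⊆ primesIn n ∪ primesIn (n + 1),
        (#A : ℝ) ≤ 2 * (α * #(primesIn n)) ∧
        (#B : ℝ) ≤ 2 * (β * #(primesIn n ∪ primesIn (n + 1))) ∧
        (n₀ ≤ n → C * (Real.log (prml (n + 1))) ^ 3 ≤ α * prml n → ∀ m ∈ evensIn (n + 1),
          c * (α * (singularFactor m * (prml n / (Real.log (prml n)) ^ 2)))
            ≤ (#(A ∩ chenPrimes n m) : ℝ)) ∧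
        (C * (Real.log (prml (n + 1))) ^ 3 ≤ α * β * prml n →
          ∀ s : ℕ, 1 ≤ s → ∀ w : ℕ → ℝ, (∀ m ∈ evensIn (n + 1), 0 ≤ w m) →
          (∑ m ∈ (evensIn (n + 1)).filter (fun m => ¬ r n ∣ m ∧
              (#{z ∈ A ×ˢ B | z.1 + z.2 = m} : ℝ) <
                c * (α * β * (((m : ℝ) / m.totient) * (prml n / (Real.log (prml n)) ^ 2)))),
            w m) ^ (2 * s)
          ≤ (C * (Real.log (prml (n + 1))) ^ 4) ^ (2 * s) * (prml n : ℝ) ^ (1 - δ)
            * Pool.Agent.PS.energy s (evensIn (n + 1)) w) ∧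
        (∀ ε : ℝ, 0 < ε → D ε * (prml n : ℝ) ^ (ε - 1) ≤ α * β →
          ∀ s : ℕ, 1 ≤ s → ∀ w : ℕ → ℝ, (∀ m ∈ evensIn (n + 1), 0 ≤ w m) →
          (∑ m ∈ (evensIn (n + 1)).filter (fun m =>
              (#{z ∈ A ×ˢ B | z.1 + z.2 = m} : ℝ) < α * β * (1 / 8 * (prml n : ℝ) ^ (1 - ε)) ∨
              (¬ r n ∣ m ∧ (#{z ∈ A ×ˢ B | z.1 + z.2 = m} : ℝ) <
                c * (α * β * (((m : ℝ) / m.totient) * (prml n / (Real.log (prml n)) ^ 2))))),
            w m) ^ (2 * s)
          ≤ C' ε s * (prml n : ℝ) ^ (1 - δ) * Pool.Agent.PS.energy s (evensIn (n + 1)) w)) ∧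
    (∀ n : ℕ, 1 ≤ n → ∀ t : ℝ, 1 ≤ t → ∃ A ⊆ primesIn n, ∃ F ⊆ evensIn (n + 1),
      (#A : ℝ) ≤ C * (t * Real.log (prml n)) ∧
      (#F : ℝ) ≤ Real.exp (-t) * #(evensIn (n + 1)) ∧
      (n₀ ≤ n → ∀ m ∈ evensIn (n + 1), m ∉ F → ∃ a ∈ A,
        ∃ s ∈ primorialInterval n ∪ primorialInterval (n + 1), m = a + s ∧ PrimeOrProduct m s) ∧
      ∀ s : ℕ, 1 ≤ s → ∀ w : ℕ → ℝ, (∀ m ∈ evensIn (n + 1), 0 ≤ w m) →
        (∑ m ∈ (evensIn (n + 1)).filter (fun m => m ∉ F ∧ ¬ r n ∣ m ∧
            ¬ ∃ a ∈ A, ∃ q ∈ primesIn n ∪ primesIn (n + 1), m = a + q), w m) ^ (2 * s)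
        ≤ (C * (Real.log (prml (n + 1))) ^ 4) ^ (2 * s) * (prml n : ℝ) ^ (1 - δ)
          * Pool.Agent.PS.energy s (evensIn (n + 1)) w) := by
  obtain ⟨δ, c1, C1, hδ, _, hc1, hC1, r, hr, he1, he2⟩ := Pool.Agent.PS.main_fine2
  obtain ⟨c2, hc2, n1, hchen⟩ := chen_lower
  obtain ⟨C2, hC2, hcard⟩ := card_bound
  have hl2 : 0 < Real.log 2 := Real.log_pos (by norm_num)
  set C : ℝ := 48 / c1 + 12 / c2 + 2 * (C2 / c1 + C2 / c2) + 2 / Real.log 2 + C1 with hCdef
  have b1 : 0 < 48 / c1 := by positivity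
  have b2 : 0 < 12 / c2 := by positivity
  have b3 : 0 < C2 / c1 := by positivity
  have b4 : 0 < C2 / c2 := by positivity
  have b5 : 0 < 2 / Real.log 2 := by positivity
  have hC : 0 < C := by linarith
  have hCc1 : 48 ≤ C * c1 := by
    have : 48 / c1 ≤ C := by linarith
    rwa [div_le_iff₀ hc1] at this
  have hCc2 : 12 ≤ C * c2 := by
    have : 12 / c2 ≤ C := by linarith
    rwa [div_le_iff₀ hc2] at this
  have hC1C : C1 ≤ C := by linarith
  obtain ⟨n2, hn2⟩ := cube_le C
  -- facts about `n`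
  have hX : ∀ n, 1 ≤ n → (2 : ℝ) ≤ prml n := fun n hn => by
    exact_mod_cast (show 2 ≤ prml n by have := le_prml n; omega)
  have hl : ∀ n, 1 ≤ n → 0 < Real.log (prml n) := fun n hn =>
    Real.log_pos (by have := hX n hn; linarith)
  have hlL : ∀ n, 1 ≤ n → Real.log (prml n) ≤ Real.log (prml (n + 1)) := fun n hn =>
    Real.log_le_log (by have := hX n hn; linarith) (by exact_mod_cast prml_le_succ n)
  let G : ℕ → ℕ → ℝ := fun n m => c1 * ((m : ℝ) / m.totient) * (prml n / (Real.log (prml n)) ^ 2)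
  have hG : ∀ n, 1 ≤ n → ∀ m ∈ evensIn (n + 1), c1 * (prml n / (Real.log (prml n)) ^ 2) ≤ G n m := by
    intro n hn m hm
    have h1 := div_totient (evens_pos hm)
    have h2 : 0 ≤ prml n / (Real.log (prml n)) ^ 2 := by positivity
    simp only [G]
    nlinarith [mul_nonneg hc1.le h2]
  -- the energy inequality with the larger constant
  have hE1 : ∀ n, 1 ≤ n → ∀ s : ℕ, 1 ≤ s → ∀ w : ℕ → ℝ, (∀ m ∈ evensIn (n + 1), 0 ≤ w m) →
      ∀ T ⊆ evensIn (n + 1), (∀ m ∈ T, ¬ r n ∣ m ∧ ¬ (Pool.Agent.PS.Rep n m ∧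
        G n m ≤ primorialReps n m)) →
      (∑ m ∈ T, w m) ^ (2 * s)
          ≤ (C * (Real.log (prml (n + 1))) ^ 4) ^ (2 * s) * (prml n : ℝ) ^ (1 - δ)
            * Pool.Agent.PS.energy s (evensIn (n + 1)) w := by
    intro n hn s hs w hw T hT hT1
    have h1 := he1 n hn s hs w hw
    have h2 := pw hw (F := T) (fun m hm => mem_filter.2 ⟨hT hm, hT1 m hm⟩)
      (filter_subset _ _) (2 * s)
    refine (h2.trans h1).trans ?_
    have hEn := Pool.Agent.PS.Energy.energy_nonneg s (evensIn (n + 1)) w hw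
    have hL0 : 0 ≤ Real.log (prml (n + 1)) := (hl n hn).le.trans (hlL n hn)
    have h3 : (C1 * (Real.log (prml (n + 1))) ^ 4) ^ (2 * s) ≤
        (C * (Real.log (prml (n + 1))) ^ 4) ^ (2 * s) := by
      apply pow_le_pow_left₀ (by positivity)
      exact mul_le_mul_of_nonneg_right hC1C (by positivity)
    gcongr
  have he2' : ∀ ε : ℝ, ∀ s : ℕ, ∃ C' : ℝ, 0 < ε → 1 ≤ s → ∀ n : ℕ, 1 ≤ n → ∀ w : ℕ → ℝ,
      (∀ m ∈ evensIn (n + 1), 0 ≤ w m) →
      (∑ m ∈ (evensIn (n + 1)).filter (fun m => Pool.Agent.PS.Exc2 c1 (ε / 2) r n m), w m) ^ (2 * s)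
      ≤ C' * (prml n : ℝ) ^ (1 - δ) * Pool.Agent.PS.energy s (evensIn (n + 1)) w := by
    intro ε s
    by_cases hε : 0 < ε
    · by_cases hs : 1 ≤ s
      · obtain ⟨C', _, h⟩ := he2 (ε / 2) (by positivity) s hs
        exact ⟨C', fun _ _ => h⟩
      · exact ⟨0, fun _ h => absurd h hs⟩
    · exact ⟨0, fun h => absurd h hε⟩
  choose C' hC' using he2'
  refine ⟨δ, min (c1 / 16) (c2 / 4), C, hδ, lt_min (by positivity) (by positivity), hC, r,
    max (max n1 n2) 1, DD, C', hr, fun n hn => hn2 n (by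
      rw [max_le_iff, max_le_iff] at hn; exact hn.1.2), ?_, ?_⟩
  · -- one pair of thin sets
    intro n hn α β ha ha1 hb hb1
    have hab : 0 < α * β := by positivity
    have hab1 : α * β ≤ 1 := by nlinarith
    have hXn := hX n hn
    obtain ⟨A, hA, B, hB, hA1, hB1, hAB, hAK⟩ := univ_pair n hn α β ha ha1 hb hb1
    -- many pairs in `A × B`
    have hlow : ∀ m ∈ evensIn (n + 1), G n m ≤ primorialReps n m →
        48 * Real.log (prml (n + 1)) ≤ α * β * primorialReps n m →
        min (c1 / 16) (c2 / 4) * (α * β * (((m : ℝ) / m.totient) *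
          (prml n / (Real.log (prml n)) ^ 2))) ≤ (#{z ∈ A ×ˢ B | z.1 + z.2 = m} : ℝ) := by
      intro m hm h1 h2
      have h3 := hAB m hm h2
      have h5 := mul_le_mul_of_nonneg_left h1 hab.le
      have h6 : 0 ≤ α * β * (((m : ℝ) / m.totient) * (prml n / (Real.log (prml n)) ^ 2)) := by
        positivity
      calc min (c1 / 16) (c2 / 4) * (α * β * (((m : ℝ) / m.totient) *
            (prml n / (Real.log (prml n)) ^ 2)))
          ≤ c1 / 16 * (α * β * (((m : ℝ) / m.totient) * (prml n / (Real.log (prml n)) ^ 2))) :=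
            mul_le_mul_of_nonneg_right (min_le_left _ _) h6
        _ = α * β * G n m / 16 := by simp only [G]; ring
        _ ≤ _ := by linarith
    refine ⟨A, hA, B, hB, hA1, hB1, ?_, ?_, ?_⟩
    · intro hn0 hcond m hm
      rw [max_le_iff, max_le_iff] at hn0
      have h2 := hchen n hn0.1.1 m hm
      have hsz := size hc2 (hl n hn) (hlL n hn) hCc2 (by linarith) ha.le hcond
      have h3 : c2 * (prml n / (Real.log (prml n)) ^ 2) ≤ (#(chenPrimes n m) : ℝ) := by
        refine le_trans ?_ h2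
        have h5 := one_le_singularFactor m
        have h6 : 0 ≤ prml n / (Real.log (prml n)) ^ 2 := by positivity
        gcongr
        nlinarith
      have h4 := mul_le_mul_of_nonneg_left h3 ha.le
      have h1 := hAK m hm (by linarith)
      have h5 := mul_le_mul_of_nonneg_left h2 ha.le
      have h6 : 0 ≤ α * (singularFactor m * (prml n / (Real.log (prml n)) ^ 2)) := by
        have := one_le_singularFactor m
        have h6 : 0 ≤ prml n / (Real.log (prml n)) ^ 2 := by positivity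
        positivity
      calc min (c1 / 16) (c2 / 4) * (α * (singularFactor m * (prml n / (Real.log (prml n)) ^ 2)))
          ≤ c2 / 4 * (α * (singularFactor m * (prml n / (Real.log (prml n)) ^ 2))) :=
            mul_le_mul_of_nonneg_right (min_le_right _ _) h6
        _ = α * (c2 * (singularFactor m * (prml n / (Real.log (prml n)) ^ 2))) / 4 := by ring
        _ ≤ α * #(chenPrimes n m) / 4 := by linarith
        _ ≤ _ := by
            refine h1.trans (le_of_eq ?_)
            congr 1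
    · intro hcond s hs w hw
      refine hE1 n hn s hs w hw _ (filter_subset _ _) fun m hm => ?_
      simp only [mem_filter] at hm
      refine ⟨hm.2.1, fun h => ?_⟩
      have h1 := hG n hn m hm.1
      have h2 := size hc1 (hl n hn) (hlL n hn) hCc1 (by linarith) hab.le hcond
      have h4 := mul_le_mul_of_nonneg_left (h1.trans h.2) hab.le
      have h5 := hlow m hm.1 h.2 (by linarith)
      exact absurd hm.2.2 (not_lt.2 h5)
    · intro ε hε hcond s hs w hw
      refine le_trans (pw hw (fun m hm => ?_) (filter_subset _ _) (2 * s))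
        (hC' ε s hε hs n hn w hw)
      simp only [mem_filter] at hm ⊢
      refine ⟨hm.1, fun h => ?_⟩
      obtain ⟨h1, h2⟩ := DD_spec hε hn hab1 hcond h.2.1
      have h3 := hAB m hm.1 h1
      rcases hm.2 with h4 | ⟨h4, h5⟩
      · linarith
      · have h6 := hlow m hm.1 (h.2.2 h4) h1
        exact absurd h5 (not_lt.2 h6)
  · -- greedy
    intro n hn t ht
    have hXn := hX n hn
    have hX0 : (0 : ℝ) < prml n := by linarith
    have hln := hl n hn
    have hPc := hcard n hn (primesIn n) (fun p hp => mem_P hp)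
    have key : ∀ c : ℝ, 0 < c → ∀ N ⊆ evensIn (n + 1), ∀ T : ℕ → Finset ℕ,
        (∀ m ∈ N, T m ⊆ primesIn n) →
        (∀ m ∈ N, c * (prml n / (Real.log (prml n)) ^ 2) ≤ (#(T m) : ℝ)) →
        ∃ A ⊆ primesIn n, (#A : ℝ) ≤ C2 / c * ((t + 1) * Real.log (prml n)) + 1 ∧
          ∃ F ⊆ evensIn (n + 1), (#F : ℝ) ≤ Real.exp (-(t + 1)) * #(evensIn (n + 1)) ∧
            ∀ m ∈ N, m ∉ F → ∃ a ∈ A, a ∈ T m := by
      intro c hc N hN T hT1 hT2
      rcases N.eq_empty_or_nonempty with rfl | ⟨m0, hm0⟩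
      · refine ⟨∅, empty_subset _, ?_, ∅, empty_subset _, ?_, by simp⟩
        · rw [card_empty, Nat.cast_zero]
          positivity
        · rw [card_empty, Nat.cast_zero]
          positivity
      have hne : (primesIn n).Nonempty := by
        have h1 := hT2 m0 hm0
        have h2 : 0 < c * (prml n / (Real.log (prml n)) ^ 2) := by positivity
        have h3 : 0 < #(T m0) := by exact_mod_cast h2.trans_le h1
        exact (card_pos.1 h3).mono (hT1 m0 hm0)
      set ρ : ℝ := c / C2 / Real.log (prml n) with hρ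
      have hρ0 : 0 < ρ := by positivity
      obtain ⟨A, hA, hAk, hAc⟩ := greedy_exp (primesIn n) hne N T hT1 ρ (fun m hm => by
        refine le_trans ?_ (hT2 m hm)
        calc ρ * #(primesIn n) ≤ ρ * (C2 * (prml n / Real.log (prml n))) :=
              mul_le_mul_of_nonneg_left hPc hρ0.le
          _ = c * (prml n / (Real.log (prml n)) ^ 2) := by
              rw [hρ]
              field_simp) ⌈(t + 1) / ρ⌉₊
      refine ⟨A, hA, ?_, N.filter (fun m => Disjoint A (T m)), (filter_subset _ _).trans hN, ?_, ?_⟩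
      · have h1 : (#A : ℝ) ≤ ⌈(t + 1) / ρ⌉₊ := by exact_mod_cast hAk
        have h2 : (⌈(t + 1) / ρ⌉₊ : ℝ) < (t + 1) / ρ + 1 := Nat.ceil_lt_add_one (by positivity)
        have h3 : (t + 1) / ρ = C2 / c * ((t + 1) * Real.log (prml n)) := by
          rw [hρ]
          field_simp
        linarith
      · refine le_trans (le_trans (le_of_eq ?_) hAc) ?_
        · congr 2
        have h1 : t + 1 ≤ ρ * ⌈(t + 1) / ρ⌉₊ := by
          have := Nat.le_ceil ((t + 1) / ρ)
          rw [div_le_iff₀ hρ0] at this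
          linarith
        have h2 : (#N : ℝ) ≤ #(evensIn (n + 1)) := by exact_mod_cast card_le_card hN
        have h3 : Real.exp (-(ρ * ⌈(t + 1) / ρ⌉₊)) ≤ Real.exp (-(t + 1)) :=
          Real.exp_le_exp.2 (by linarith)
        gcongr
      · intro m hm hmF
        have h1 : ¬ Disjoint A (T m) := fun h => hmF (mem_filter.2 ⟨hm, h⟩)
        rw [not_disjoint_iff] at h1
        exact h1
    obtain ⟨A1, hA1, hA1c, F1, hF1, hF1c, hcov1⟩ := key c1 hc1
      ((evensIn (n + 1)).filter (fun m => G n m ≤ primorialReps n m)) (filter_subset _ _)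
      (Rs (primesIn n) (primesIn n ∪ primesIn (n + 1))) (fun m _ => filter_subset _ _)
      (fun m hm => by
        rw [mem_filter] at hm
        exact ((hG n hn m hm.1).trans hm.2).trans (reps_Rs n m))
    obtain ⟨A2, hA2, hA2c, F2, hF2, hF2c, hcov2⟩ := key c2 hc2
      (if n1 ≤ n then evensIn (n + 1) else ∅) (by
        split_ifs
        · exact subset_rfl
        · exact empty_subset _) (chenPrimes n) (fun m _ => filter_subset _ _) (fun m hm => by
        have hn1 : n1 ≤ n := by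
          by_contra h0
          rw [if_neg h0] at hm
          simp at hm
        rw [if_pos hn1] at hm
        refine le_trans ?_ (hchen n hn1 m hm)
        have h5 := one_le_singularFactor m
        have h6 : 0 ≤ prml n / (Real.log (prml n)) ^ 2 := by positivity
        gcongr
        nlinarith)
    refine ⟨A1 ∪ A2, union_subset hA1 hA2, F1 ∪ F2, union_subset hF1 hF2, ?_, ?_, ?_, ?_⟩
    · have h1 : (#(A1 ∪ A2) : ℝ) ≤ #A1 + #A2 := by exact_mod_cast card_union_le _ _
      have h2 : Real.log 2 ≤ Real.log (prml n) := Real.log_le_log (by norm_num) hXn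
      have h3 : Real.log 2 ≤ t * Real.log (prml n) := by nlinarith
      have h4 : 2 ≤ 2 / Real.log 2 * (t * Real.log (prml n)) := by
        calc (2 : ℝ) = 2 / Real.log 2 * Real.log 2 := by field_simp
          _ ≤ _ := by gcongr
      have h5 : 0 ≤ t * Real.log (prml n) := by positivity
      have h7 : (t + 1) * Real.log (prml n) ≤ 2 * (t * Real.log (prml n)) := by nlinarith
      have h8 := mul_le_mul_of_nonneg_left h7 b3.le
      have h9 := mul_le_mul_of_nonneg_left h7 b4.le
      have h6 : (2 * (C2 / c1 + C2 / c2) + 2 / Real.log 2) * (t * Real.log (prml n)) ≤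
          C * (t * Real.log (prml n)) := mul_le_mul_of_nonneg_right (by linarith) h5
      nlinarith
    · have h1 : (#(F1 ∪ F2) : ℝ) ≤ #F1 + #F2 := by exact_mod_cast card_union_le _ _
      have h2 : 2 * Real.exp (-(t + 1)) ≤ Real.exp (-t) := by
        have h3 : Real.exp (-(t + 1)) = Real.exp (-t) * Real.exp (-1) := by
          rw [← Real.exp_add]
          congr 1
          ring
        have h4 : Real.exp (-1) ≤ 1 / 2 := by
          rw [Real.exp_neg, inv_eq_one_div]
          apply one_div_le_one_div_of_le (by norm_num)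
          have := Real.add_one_le_exp (1 : ℝ)
          linarith
        have h5 := Real.exp_pos (-t)
        rw [h3]
        nlinarith
      have h3 : (0 : ℝ) ≤ #(evensIn (n + 1)) := Nat.cast_nonneg _
      nlinarith
    · intro hn0 m hm hmF
      rw [max_le_iff, max_le_iff] at hn0
      obtain ⟨a, ha, ha'⟩ := hcov2 m (by rw [if_pos hn0.1.1]; exact hm)
        (fun h => hmF (mem_union_right _ h))
      unfold chenPrimes at ha'
      rw [mem_filter] at ha'
      exact ⟨a, mem_union_right _ ha, m - a, ha'.2.2.1, by omega, ha'.2.2.2⟩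
    · intro s hs w hw
      refine hE1 n hn s hs w hw _ (fun m hm => ?_) fun m hm => ?_
      · simp only [mem_filter] at hm
        exact hm.1
      simp only [mem_filter] at hm
      refine ⟨hm.2.2.1, fun h => ?_⟩
      obtain ⟨a, ha, ha'⟩ := hcov1 m (mem_filter.2 ⟨hm.1, h.2⟩)
        (fun h => hm.2.1 (mem_union_left _ h))
      rw [Rs, mem_filter] at ha'
      exact hm.2.2.2 ⟨a, mem_union_left _ ha, m - a, ha'.2.2, by omega⟩

end Pool.Agent.Thin
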