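import Mathlib
import Pool.Agent.Work.MP_484fb8_thin.Main

/-!
# Thin sets of primes in primorial intervals: sets of `(log #(n))^2` primes
-/

set_option autoImplicit false

namespace Pool.Agent.Thin

open Finset Filter Pool.Agent.Work.MP_484fb8_nt

theorem one_le_card_evens (n : ℕ) (hn : 1 ≤ n) : 1 ≤ #(evensIn (n + 1)) := by
  have h0 : 2 ≤ prml n := by have := le_prml n; omega
  have h1 : prml (n + 1) = prml n * Nat.nth Nat.Prime n := prml_succ n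
  have h2 : 2 ≤ Nat.nth Nat.Prime n := (Nat.prime_nth_prime n).two_le
  have h3 : 2 * prml n ≤ prml (n + 1) := by rw [h1]; nlinarith
  rw [Nat.one_le_iff_ne_zero, Ne, card_eq_zero, ← Ne, ← nonempty_iff_ne_empty]
  unfold evensIn primorialInterval
  rcases Nat.even_or_odd (prml n) with h | h
  · refine ⟨prml n + 2, ?_⟩
    rw [mem_filter, mem_Icc]
    refine ⟨⟨by simp only [Nat.add_sub_cancel]; omega, by omega⟩, ?_⟩
    exact h.add (by decide)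
  · refine ⟨prml n + 1, ?_⟩
    rw [mem_filter, mem_Icc]
    refine ⟨⟨by simp only [Nat.add_sub_cancel]; omega, by omega⟩, ?_⟩
    exact h.add_one

/-- the greedy statement with `t` of the order of `log #(n)` -/
theorem few {δ C : ℝ} (hδ : 0 < δ) (hC : 0 < C) {r : ℕ → ℕ} {n₀ : ℕ}
    {E F : ℕ → Finset ℕ → ℕ}
    (h : ∀ n : ℕ, 1 ≤ n → ∀ t : ℝ, 1 ≤ t → ∃ A ⊆ primesIn n,
      (#A : ℝ) ≤ C * (t * Real.log (prml n)) ∧
      (E n A : ℝ) ≤ C * (#(evensIn (n + 1)) : ℝ) ^ (1 - δ) + Real.exp (-t) * #(evensIn (n + 1)) ∧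
      (n₀ ≤ n → (F n A : ℝ) ≤ Real.exp (-t) * #(evensIn (n + 1)))) :
    ∃ C₃ : ℝ, ∀ n : ℕ, 1 ≤ n → ∃ A ⊆ primesIn n,
      (#A : ℝ) ≤ C₃ * (Real.log (prml n)) ^ 2 ∧
      (E n A : ℝ) ≤ C₃ * (#(evensIn (n + 1)) : ℝ) ^ (1 - δ) ∧ (n₀ ≤ n → F n A = 0) := by
  have hl2 : 0 < Real.log 2 := Real.log_pos (by norm_num)
  refine ⟨max (C * ((1 + δ) * 3 + 1 / Real.log 2)) (C + 1), fun n hn => ?_⟩
  have hX : (2 : ℝ) ≤ prml n := by
    exact_mod_cast (show 2 ≤ prml n by have := le_prml n; omega)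
  have hl : Real.log 2 ≤ Real.log (prml n) := Real.log_le_log (by norm_num) hX
  have hE1 : (1 : ℝ) ≤ #(evensIn (n + 1)) := by exact_mod_cast one_le_card_evens n hn
  have hE0 : (0 : ℝ) < #(evensIn (n + 1)) := by linarith
  have hE2 : Real.log #(evensIn (n + 1)) ≤ 3 * Real.log (prml n) := by
    refine le_trans ?_ (log_prml_succ n hn)
    exact Real.log_le_log hE0 (by exact_mod_cast card_evens n)
  have hE3 : 0 ≤ Real.log #(evensIn (n + 1)) := Real.log_nonneg hE1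
  set t : ℝ := (1 + δ) * Real.log #(evensIn (n + 1)) + 1 with ht
  have ht1 : 1 ≤ t := by
    have : 0 ≤ (1 + δ) * Real.log #(evensIn (n + 1)) := by positivity
    linarith
  obtain ⟨A, hA, hA1, hA2, hA3⟩ := h n hn t ht1
  have hexp : Real.exp (-t) * #(evensIn (n + 1)) =
      Real.exp (-1) * (#(evensIn (n + 1)) : ℝ) ^ (-δ) := by
    rw [Real.rpow_def_of_pos hE0]
    calc Real.exp (-t) * #(evensIn (n + 1)) =
        Real.exp (-t) * Real.exp (Real.log #(evensIn (n + 1))) := by rw [Real.exp_log hE0]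
      _ = Real.exp (-1) * Real.exp (Real.log #(evensIn (n + 1)) * -δ) := by
          rw [← Real.exp_add, ← Real.exp_add]
          congr 1
          rw [ht]
          ring
  have he1 : Real.exp (-1) < 1 := by
    rw [Real.exp_lt_one_iff]
    norm_num
  have hp1 : (#(evensIn (n + 1)) : ℝ) ^ (-δ) ≤ 1 :=
    Real.rpow_le_one_of_one_le_of_nonpos hE1 (by linarith)
  have hp2 : (#(evensIn (n + 1)) : ℝ) ^ (-δ) ≤ (#(evensIn (n + 1)) : ℝ) ^ (1 - δ) :=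
    Real.rpow_le_rpow_of_exponent_le hE1 (by linarith)
  have hp0 : 0 < (#(evensIn (n + 1)) : ℝ) ^ (-δ) := by positivity
  have hp3 : 0 < (#(evensIn (n + 1)) : ℝ) ^ (1 - δ) := by positivity
  have he0 := Real.exp_pos (-1)
  refine ⟨A, hA, ?_, ?_, fun hn0 => ?_⟩
  · refine hA1.trans ?_
    have h1 : t ≤ ((1 + δ) * 3 + 1 / Real.log 2) * Real.log (prml n) := by
      have h2 : 1 ≤ 1 / Real.log 2 * Real.log (prml n) := by
        calc (1 : ℝ) = 1 / Real.log 2 * Real.log 2 := by field_simp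
          _ ≤ _ := by gcongr
      have h3 : (1 + δ) * Real.log #(evensIn (n + 1)) ≤ (1 + δ) * (3 * Real.log (prml n)) := by
        gcongr
      rw [ht]
      nlinarith
    calc C * (t * Real.log (prml n)) ≤
        C * (((1 + δ) * 3 + 1 / Real.log 2) * Real.log (prml n) * Real.log (prml n)) := by
          have : 0 ≤ Real.log (prml n) := by linarith
          gcongr
      _ = C * ((1 + δ) * 3 + 1 / Real.log 2) * (Real.log (prml n)) ^ 2 := by ring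
      _ ≤ _ := mul_le_mul_of_nonneg_right (le_max_left _ _) (by positivity)
  · refine hA2.trans ?_
    rw [hexp]
    calc C * (#(evensIn (n + 1)) : ℝ) ^ (1 - δ) + Real.exp (-1) * (#(evensIn (n + 1)) : ℝ) ^ (-δ)
        ≤ (C + 1) * (#(evensIn (n + 1)) : ℝ) ^ (1 - δ) := by nlinarith
      _ ≤ _ := mul_le_mul_of_nonneg_right (le_max_right _ _) hp3.le
  · have h1 := hA3 hn0
    rw [hexp] at h1
    have h2 : (F n A : ℝ) < 1 := by nlinarith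
    have h3 : F n A < 1 := by exact_mod_cast h2
    omega

open scoped Classical in
/-- **thin sets of primes**, all parts -/
theorem main2 : ∃ δ c C : ℝ, 0 < δ ∧ 0 < c ∧ 0 < C ∧ ∃ (r : ℕ → ℕ) (n₀ : ℕ),
    (∀ A : ℕ, ∃ C' : ℝ, ∀ n : ℕ, 1 ≤ n → (Real.log (prml (n + 1))) ^ A ≤ C' * r n) ∧
    (∀ n, n₀ ≤ n → C * (Real.log (prml (n + 1))) ^ 3 ≤ prml n) ∧
    (∀ n : ℕ, 1 ≤ n → ∀ α β : ℝ, 0 < α → α ≤ 1 → 0 < β → β ≤ 1 →
      C * (Real.log (prml (n + 1))) ^ 3 ≤ α * β * prml n →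
      ∃ A ⊆ primesIn n, ∃ B ⊆ primesIn n ∪ primesIn (n + 1),
        (#A : ℝ) ≤ 2 * (α * #(primesIn n)) ∧
        (#B : ℝ) ≤ 2 * (β * #(primesIn n ∪ primesIn (n + 1))) ∧
        (n₀ ≤ n → ∀ m ∈ evensIn (n + 1),
          c * (α * (singularFactor m * (prml n / (Real.log (prml n)) ^ 2)))
            ≤ (#(A ∩ chenPrimes n m) : ℝ)) ∧
        (#{m ∈ evensIn (n + 1) | ¬ r n ∣ m ∧ (#{z ∈ A ×ˢ B | z.1 + z.2 = m} : ℝ) <
            c * (α * β * (((m : ℝ) / m.totient) * (prml n / (Real.log (prml n)) ^ 2)))} : ℝ)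
          ≤ C * (#(evensIn (n + 1)) : ℝ) ^ (1 - δ)) ∧
    (∀ ε : ℝ, 0 < ε → ∃ C' : ℝ, ∀ n : ℕ, 1 ≤ n → ∀ α β : ℝ, 0 < α → α ≤ 1 → 0 < β → β ≤ 1 →
      C' * (prml n : ℝ) ^ (ε - 1) ≤ α * β →
      ∃ A ⊆ primesIn n, ∃ B ⊆ primesIn n ∪ primesIn (n + 1),
        (#A : ℝ) ≤ 2 * (α * #(primesIn n)) ∧
        (#B : ℝ) ≤ 2 * (β * #(primesIn n ∪ primesIn (n + 1))) ∧
        (#{m ∈ evensIn (n + 1) | ¬ ∃ a ∈ A, ∃ b ∈ B, m = a + b} : ℝ)
          ≤ C' * (#(evensIn (n + 1)) : ℝ) ^ (1 - δ)) ∧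
    (∀ n : ℕ, 1 ≤ n → ∀ t : ℝ, 1 ≤ t → ∃ A ⊆ primesIn n,
      (#A : ℝ) ≤ C * (t * Real.log (prml n)) ∧
      (#{m ∈ evensIn (n + 1) | ¬ r n ∣ m ∧
          ¬ ∃ a ∈ A, ∃ q ∈ primesIn n ∪ primesIn (n + 1), m = a + q} : ℝ)
        ≤ C * (#(evensIn (n + 1)) : ℝ) ^ (1 - δ) + Real.exp (-t) * #(evensIn (n + 1)) ∧
      (n₀ ≤ n → (#{m ∈ evensIn (n + 1) | Disjoint A (chenPrimes n m)} : ℝ)
        ≤ Real.exp (-t) * #(evensIn (n + 1)))) ∧
    (∃ C₃ : ℝ, ∀ n : ℕ, 1 ≤ n → ∃ A ⊆ primesIn n,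
      (#A : ℝ) ≤ C₃ * (Real.log (prml n)) ^ 2 ∧
      (#{m ∈ evensIn (n + 1) | ¬ r n ∣ m ∧
          ¬ ∃ a ∈ A, ∃ q ∈ primesIn n ∪ primesIn (n + 1), m = a + q} : ℝ)
        ≤ C₃ * (#(evensIn (n + 1)) : ℝ) ^ (1 - δ) ∧
      (n₀ ≤ n → ∀ m ∈ evensIn (n + 1), ∃ a ∈ A,
        ∃ s ∈ primorialInterval n ∪ primorialInterval (n + 1), m = a + s ∧ PrimeOrProduct m s)) ∧
    (∃ C₄ : ℝ, ∀ n : ℕ, 1 ≤ n → ∀ A : Finset ℕ,
      (#{m ∈ evensIn (n + 1) | ∃ a ∈ A, ∃ q ∈ primesIn n ∪ primesIn (n + 1), m = a + q} : ℝ) ≤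
        C₄ * (#A * (prml (n + 1) / Real.log (prml (n + 1))))) := by
  obtain ⟨δ, c, C, hδ, hc, hC, r, n₀, hr, hn0, h1, h2, h3⟩ := main
  refine ⟨δ, c, C, hδ, hc, hC, r, n₀, hr, hn0, h1, h2, h3, ?_, ?_⟩
  · obtain ⟨C₃, h4⟩ := few (r := r) hδ hC h3
    refine ⟨C₃, fun n hn => ?_⟩
    obtain ⟨A, hA, hA1, hA2, hA3⟩ := h4 n hn
    refine ⟨A, hA, hA1, hA2, fun hn0 m hm => ?_⟩
    have h5 := hA3 hn0
    rw [card_eq_zero, filter_eq_empty_iff] at h5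
    have h6 := h5 hm
    rw [not_disjoint_iff] at h6
    obtain ⟨p, hp, hp'⟩ := h6
    unfold chenPrimes at hp'
    rw [mem_filter] at hp'
    exact ⟨p, hp, m - p, hp'.2.2.1, by omega, hp'.2.2.2⟩
  · obtain ⟨C₄, -, h4⟩ := converse
    refine ⟨C₄, fun n hn A => ?_⟩
    refine le_trans (Nat.cast_le.2 (card_le_card fun m hm => ?_)) (h4 n hn A)
    simp only [mem_filter] at hm ⊢
    exact hm

end Pool.Agent.Thin
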